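import Pool.Agent.Lib.SingHom.Htpy

/-!
# Comparison of the elementary singular chains with Mathlib's singular chain complex
-/

set_option linter.unusedSectionVars false

open CategoryTheory Limits AlgebraicTopology Simplicial Opposite

namespace Pool.Agent.Lib.SingHom

section

variable (K : Type) [CommRing K] {X X' : Type} [TopologicalSpace X] [TopologicalSpace X']

/-- Mathlib's singular chain complex -/
noncomputable abbrev CC (X : Type) [TopologicalSpace X] : ChainComplex (ModuleCat.{0} K) ℕ :=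
  ((singularChainComplexFunctor (ModuleCat.{0} K)).obj (ModuleCat.of K K)).obj (TopCat.of X)

/-- the chain map induced by a continuous map -/
noncomputable abbrev CCmap (f : C(X, X')) : CC K X ⟶ CC K X' :=
  ((singularChainComplexFunctor (ModuleCat.{0} K)).obj (ModuleCat.of K K)).map (TopCat.ofHom f)

/-- a singular simplex as a simplex of the singular simplicial set -/
noncomputable def sx {n : ℕ} (σ : C(Sx n, X)) : (TopCat.toSSet.obj (TopCat.of X)) _⦋n⦌ :=
  (TopCat.toSSetObjEquiv (TopCat.of X) (op ⦋n⦌)).symm σ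

theorem sx_surjective {n : ℕ} (x : (TopCat.toSSet.obj (TopCat.of X)) _⦋n⦌) :
    ∃ σ : C(Sx n, X), sx σ = x :=
  ⟨TopCat.toSSetObjEquiv (TopCat.of X) (op ⦋n⦌) x, Equiv.symm_apply_apply _ _⟩

theorem δ_sx {n : ℕ} (i : Fin (n + 2)) (σ : C(Sx (n + 1), X)) :
    (TopCat.toSSet.obj (TopCat.of X)).δ i (sx σ) = sx (face i σ) := by
  exact TopCat.toSSetObjEquiv_symm_naturality (X := TopCat.of X) (SimplexCategory.δ i) σ

theorem map_sx {n : ℕ} (f : C(X, X')) (σ : C(Sx n, X)) :
    (TopCat.toSSet.map (TopCat.ofHom f)).app (op ⦋n⦌) (sx σ) = sx (f.comp σ) := rfl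

/-- the generator of Mathlib's singular chains given by a singular simplex -/
noncomputable def gen {n : ℕ} (σ : C(Sx n, X)) : (CC K X).X n :=
  (SSet.ιChainComplex (TopCat.toSSet.obj (TopCat.of X)) (R := ModuleCat.of K K)
      (sx σ)).hom (1 : K)

/-- the comparison on chains -/
noncomputable def cmp (n : ℕ) : SC K X n →ₗ[K] (CC K X).X n :=
  Finsupp.linearCombination K (gen K)

theorem cmp_single {n : ℕ} (σ : C(Sx n, X)) : cmp K n (Finsupp.single σ 1) = gen K σ := by
  rw [cmp, Finsupp.linearCombination_single, one_smul]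

/-- the inverse of the comparison -/
noncomputable def cmpInv (n : ℕ) : (CC K X).X n →ₗ[K] SC K X n :=
  ((SSet.isColimitChainComplexXCofan (TopCat.toSSet.obj (TopCat.of X)) (ModuleCat.of K K) n).desc
    (Cofan.mk (ModuleCat.of K (SC K X n))
      (fun x => ModuleCat.ofHom (Finsupp.lsingle
        (TopCat.toSSetObjEquiv (TopCat.of X) (op ⦋n⦌) x))))).hom

theorem cmpInv_gen {n : ℕ} (σ : C(Sx n, X)) :
    cmpInv K n (gen K σ) = Finsupp.single σ 1 := by
  have h := (SSet.isColimitChainComplexXCofan (TopCat.toSSet.obj (TopCat.of X))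
    (ModuleCat.of K K) n).fac
    (Cofan.mk (ModuleCat.of K (SC K X n))
      (fun x => ModuleCat.ofHom (Finsupp.lsingle
        (TopCat.toSSetObjEquiv (TopCat.of X) (op ⦋n⦌) x)))) ⟨sx σ⟩
  have h2 := congrArg (fun g => g.hom (1 : K)) h
  refine Eq.trans h2 ?_
  show Finsupp.single (TopCat.toSSetObjEquiv (TopCat.of X) (op ⦋n⦌) (sx σ)) (1 : K) = _
  rw [sx, Equiv.apply_symm_apply]

theorem cmpInv_cmp (n : ℕ) (c : SC K X n) : cmpInv K n (cmp K n c) = c := by
  have h : (cmpInv K n) ∘ₗ (cmp K n) = (LinearMap.id : SC K X n →ₗ[K] SC K X n) := by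
    apply slin_ext
    intro σ
    rw [LinearMap.comp_apply, cmp_single, cmpInv_gen]
    rfl
  exact LinearMap.congr_fun h c

theorem cc_ext {n : ℕ} {M : ModuleCat.{0} K} {f g : (CC K X).X n ⟶ M}
    (h : ∀ σ : C(Sx n, X), f.hom (cmp K n (Finsupp.single σ 1)) =
      g.hom (cmp K n (Finsupp.single σ 1))) : f = g := by
  refine SSet.chainComplex_hom_ext (X := TopCat.toSSet.obj (TopCat.of X)) (fun x => ?_)
  obtain ⟨σ, rfl⟩ := sx_surjective x
  ext
  have := h σ
  rw [cmp_single] at this
  exact this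

theorem cmp_cmpInv (n : ℕ) (c : (CC K X).X n) : cmp K n (cmpInv K n c) = c := by
  have h : ModuleCat.ofHom ((cmp K n) ∘ₗ (cmpInv K n)) = 𝟙 ((CC K X).X n) := by
    apply cc_ext
    intro σ
    show cmp K n (cmpInv K n (cmp K n (Finsupp.single σ 1))) = cmp K n (Finsupp.single σ 1)
    rw [cmpInv_cmp]
  exact LinearMap.congr_fun (congrArg ModuleCat.Hom.hom h) c

theorem cmp_injective (n : ℕ) : Function.Injective (cmp K n (X := X)) :=
  Function.LeftInverse.injective (cmpInv_cmp K n)

theorem cmp_d (n : ℕ) (c : SC K X (n + 1)) :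
    ((CC K X).d (n + 1) n).hom (cmp K (n + 1) c) = cmp K n (sbd K n c) := by
  have h : ((CC K X).d (n + 1) n).hom ∘ₗ (cmp K (n + 1)) = (cmp K n) ∘ₗ (sbd K n) := by
    apply slin_ext
    intro σ
    rw [LinearMap.comp_apply, LinearMap.comp_apply, sbd_single, cmp_single, sbdv, map_sum]
    have h1 := SSet.ιChainComplex_d (TopCat.toSSet.obj (TopCat.of X)) (ModuleCat.of K K) (sx σ)
    have h2 := congrArg (fun g => g.hom (1 : K)) h1
    have h3 : ((CC K X).d (n + 1) n).hom (gen K σ) =
        ∑ i : Fin (n + 2), (-1 : ℤ) ^ (i : ℕ) • gen K (face i σ) := by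
      refine Eq.trans h2 ?_
      simp only [ModuleCat.hom_sum, LinearMap.sum_apply, δ_sx]
      rfl
    rw [h3]
    apply Finset.sum_congr rfl
    intro i _
    rw [map_smul, cmp_single]
    rcases Nat.even_or_odd (i : ℕ) with hi | hi
    · rw [hi.neg_one_pow, hi.neg_one_pow, one_smul, one_smul]
    · rw [hi.neg_one_pow, hi.neg_one_pow, neg_smul, neg_smul, one_smul, one_smul]
  exact LinearMap.congr_fun h c

theorem cmp_map (f : C(X, X')) (n : ℕ) (c : SC K X n) :
    ((CCmap K f).f n).hom (cmp K n c) = cmp K n (smp K f n c) := by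
  have h : ((CCmap K f).f n).hom ∘ₗ (cmp K n) = (cmp K n) ∘ₗ (smp K f n) := by
    apply slin_ext
    intro σ
    rw [LinearMap.comp_apply, LinearMap.comp_apply, smp_single, cmp_single, cmp_single]
    have h1 := SSet.ι_chainComplexMap_f (f := TopCat.toSSet.map (TopCat.ofHom f))
      (R := ModuleCat.of K K) (x := sx σ)
    exact congrArg (fun g => g.hom (1 : K)) h1
  exact LinearMap.congr_fun h c

end

end Pool.Agent.Lib.SingHom
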