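import Pool.Agent.Lib.SingHom.KillsIff

/-!
# The Mayer–Vietoris sequence for Mathlib's singular homology (over a field)
-/

set_option linter.unusedSectionVars false

open HoloConj

namespace Pool.Agent.Lib.SingHom

theorem exists_equiv_of_ker_eq {K : Type} [Field K] {A B C : Type} [AddCommMonoid A] [Module K A]
    [AddCommGroup B] [Module K B] [AddCommGroup C] [Module K C] (p : A →ₗ[K] B) (q : A →ₗ[K] C)
    (hp : Function.Surjective p) (hq : Function.Surjective q)
    (h : LinearMap.ker p = LinearMap.ker q) : Nonempty (B ≃ₗ[K] C) := by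
  let R : Submodule K (B × C) := LinearMap.range (p.prod q)
  let f : R →ₗ[K] B := (LinearMap.fst K B C) ∘ₗ R.subtype
  let g : R →ₗ[K] C := (LinearMap.snd K B C) ∘ₗ R.subtype
  have hf : Function.Bijective f := by
    constructor
    · rw [← LinearMap.ker_eq_bot, LinearMap.ker_eq_bot']
      rintro ⟨_, a, rfl⟩ h0
      have h1 : p a = 0 := h0
      have h2 : a ∈ LinearMap.ker q := by
        rw [← h]
        exact h1
      apply Subtype.ext
      exact Prod.ext h1 h2
    · intro b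
      obtain ⟨a, rfl⟩ := hp b
      exact ⟨⟨_, a, rfl⟩, rfl⟩
  have hg : Function.Bijective g := by
    constructor
    · rw [← LinearMap.ker_eq_bot, LinearMap.ker_eq_bot']
      rintro ⟨_, a, rfl⟩ h0
      have h1 : q a = 0 := h0
      have h2 : a ∈ LinearMap.ker p := by
        rw [h]
        exact h1
      apply Subtype.ext
      exact Prod.ext h2 h1
    · intro b
      obtain ⟨a, rfl⟩ := hq b
      exact ⟨⟨_, a, rfl⟩, rfl⟩
  exact ⟨(LinearEquiv.ofBijective f hf).symm.trans (LinearEquiv.ofBijective g hg)⟩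

section chains

variable {K : Type} [Field K] {X : Type} [TopologicalSpace X]

theorem mem_supp_true {α : Type} (c : α →₀ K) : c ∈ supp K (fun _ : α => True) := by
  rw [supp, Finsupp.mem_supported]
  exact fun _ _ => trivial

theorem HH_mem_inU {U : Set X} {n : ℕ} {c : SC K X n} (h : c ∈ inU K U n) :
    HH K n c ∈ inU K U (n + 1) := by
  refine supp_map K (HH K n) ?_ h
  intro σ hσ
  rw [HH_single]
  refine supp_map K (push K σ (n + 1)) ?_ (mem_supp_true _)
  intro w _
  rw [push_single]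
  exact single_mem_supp K (P := fun σ : C(Sx (n + 1), X) => ∀ t, σ t ∈ U) (v := σ.comp (aff w))
    (fun t => hσ (aff w t)) 1

theorem HH_mem_sup {U V : Set X} {n : ℕ} {c : SC K X n} (h : c ∈ inU K U n ⊔ inU K V n) :
    HH K n c ∈ inU K U (n + 1) ⊔ inU K V (n + 1) := by
  obtain ⟨a, ha, b, hb, hab⟩ := Submodule.mem_sup.1 h
  rw [← hab, map_add]
  exact Submodule.add_mem_sup (HH_mem_inU ha) (HH_mem_inU hb)

theorem small_homotopy {U V : Set X} {n : ℕ} {c : SC K X n} (hc : IsCyc K n c)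
    (h : c ∈ inU K U n ⊔ inU K V n) (k : ℕ) :
    ∃ e ∈ inU K U (n + 1) ⊔ inU K V (n + 1), sbd K n e = c - ((SS K n) ^ k) c := by
  induction k with
  | zero =>
    refine ⟨0, Submodule.zero_mem _, ?_⟩
    rw [map_zero, pow_zero]
    show 0 = c - c
    rw [sub_self]
  | succ k ih =>
    obtain ⟨e, he, hde⟩ := ih
    have hc' := isCyc_SS_pow hc k
    refine ⟨e + HH K n (((SS K n) ^ k) c),
      Submodule.add_mem _ he (HH_mem_sup (SS_pow_mem_sup h k)), ?_⟩
    have h1 : sbd K n (HH K n (((SS K n) ^ k) c)) =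
        ((SS K n) ^ k) c - SS K n (((SS K n) ^ k) c) := by
      cases n with
      | zero => exact sbd_HH_zero K _
      | succ n =>
        have h' : sbd K n (((SS K (n + 1)) ^ k) c) = 0 := hc'
        have h2 := sbd_HH K n (((SS K (n + 1)) ^ k) c)
        rw [h', map_zero, add_zero] at h2
        exact h2
    rw [map_add, hde, h1, SS_pow_succ]
    abel

theorem isCyc_sbd {n : ℕ} (y : SC K X (n + 1)) : IsCyc K n (sbd K n y) := by
  cases n with
  | zero => trivial
  | succ n => exact sbd_sbd K n y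

/-- small boundaries are boundaries of small chains -/
theorem small_boundary {U V : Set X} (hU : IsOpen U) (hV : IsOpen V) (hUV : U ∪ V = Set.univ)
    {n : ℕ} {y : SC K X (n + 1)} (h : sbd K n y ∈ inU K U n ⊔ inU K V n) :
    ∃ y' ∈ inU K U (n + 1) ⊔ inU K V (n + 1), sbd K n y' = sbd K n y := by
  obtain ⟨k, hk⟩ := exists_small (R := K) hU hV hUV y
  obtain ⟨e, he, hde⟩ := small_homotopy (isCyc_sbd y) h k
  refine ⟨((SS K (n + 1)) ^ k) y + e, Submodule.add_mem _ hk he, ?_⟩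
  have h1 : ∀ j : ℕ, sbd K n (((SS K (n + 1)) ^ j) y) = ((SS K n) ^ j) (sbd K n y) := by
    intro j
    induction j with
    | zero => rfl
    | succ j ih => rw [SS_pow_succ, SS_pow_succ, sbd_SS, ih]
  rw [map_add, h1, hde]
  abel

end chains

section mv

variable {K : Type} [Field K] {X : Type} [TopologicalSpace X] (U V : Set X)

/-- inclusion of the intersection -/
def jL : C(↥(U ∩ V), U) := ⟨fun x => ⟨x.1, x.2.1⟩, continuous_subtype_val.subtype_mk _⟩

/-- inclusion of the intersection -/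
def jR : C(↥(U ∩ V), V) := ⟨fun x => ⟨x.1, x.2.2⟩, continuous_subtype_val.subtype_mk _⟩

theorem incl_jL : (incl U).comp (jL U V) = incl (U ∩ V) := rfl

theorem incl_jR : (incl V).comp (jR U V) = incl (U ∩ V) := rfl

theorem jL_injective : Function.Injective (jL U V) := by
  intro x y h
  exact Subtype.ext (congrArg (fun z : U => (z : X)) h)

theorem jR_injective : Function.Injective (jR U V) := by
  intro x y h
  exact Subtype.ext (congrArg (fun z : V => (z : X)) h)

variable {U V}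

theorem exists_glue {n : ℕ} {a : SC K U n} {b : SC K V n}
    (h : smp K (incl U) n a = smp K (incl V) n b) :
    ∃ w : SC K ↥(U ∩ V) n, smp K (jL U V) n w = a ∧ smp K (jR U V) n w = b := by
  have hw1 : smp K (incl U) n a ∈ inU K U n := smp_mem_inU _
  have hw2 : smp K (incl U) n a ∈ inU K V n := by
    rw [h]
    exact smp_mem_inU _
  obtain ⟨w, hw⟩ := exists_lift (mem_inter hw1 hw2)
  have iU : Function.Injective (incl U) := Subtype.val_injective
  have iV : Function.Injective (incl V) := Subtype.val_injective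
  refine ⟨w, ?_, ?_⟩
  · apply smp_injective iU
    rw [← smp_comp, incl_jL, hw]
  · apply smp_injective iV
    rw [← smp_comp, incl_jR, hw, h]

theorem isCyc_of_glue {n : ℕ} {a : SC K U (n + 1)} {w : SC K ↥(U ∩ V) n}
    (h : smp K (jL U V) n w = sbd K n a) : w ∈ Zc K ↥(U ∩ V) n := by
  rw [mem_Zc]
  cases n with
  | zero => trivial
  | succ n =>
    show sbd K n w = 0
    apply smp_injective (jL_injective U V)
    rw [← sbd_smp, h, sbd_sbd, map_zero]

theorem exists_decomp (hU : IsOpen U) (hV : IsOpen V) (hUV : U ∪ V = Set.univ) {n : ℕ}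
    {z : SC K X n} (hz : IsCyc K n z) :
    ∃ (a : SC K U n) (b : SC K V n), IsCyc K n (smp K (incl U) n a - smp K (incl V) n b) ∧
      IsBdry K n (z - (smp K (incl U) n a - smp K (incl V) n b)) := by
  obtain ⟨k, hk⟩ := exists_small (R := K) hU hV hUV z
  obtain ⟨a, ha, b, hb, hab⟩ := Submodule.mem_sup.1 hk
  obtain ⟨a', rfl⟩ := exists_lift ha
  obtain ⟨b', rfl⟩ := exists_lift hb
  refine ⟨a', -b', ?_, ?_⟩
  · rw [map_neg, sub_neg_eq_add, hab]
    exact isCyc_SS_pow hz k
  · rw [map_neg, sub_neg_eq_add, hab]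
    exact isBdry_sub_SS_pow hz k

theorem exists_small_bdry (hU : IsOpen U) (hV : IsOpen V) (hUV : U ∪ V = Set.univ) {n : ℕ}
    {a : SC K U n} {b : SC K V n}
    (h : IsBdry K n (smp K (incl U) n a - smp K (incl V) n b)) :
    ∃ (y₁ : SC K U (n + 1)) (y₂ : SC K V (n + 1)) (w : SC K ↥(U ∩ V) n),
      smp K (jL U V) n w = a - sbd K n y₁ ∧ smp K (jR U V) n w = b - sbd K n y₂ := by
  obtain ⟨y, hy⟩ := h
  have h1 : sbd K n y ∈ inU K U n ⊔ inU K V n := by
    rw [hy, sub_eq_add_neg, ← map_neg]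
    exact Submodule.add_mem_sup (smp_mem_inU _) (smp_mem_inU _)
  obtain ⟨y', hy', hyy⟩ := small_boundary hU hV hUV h1
  obtain ⟨c, hc, d, hd, hcd⟩ := Submodule.mem_sup.1 hy'
  obtain ⟨y₁, rfl⟩ := exists_lift hc
  obtain ⟨y₂, rfl⟩ := exists_lift hd
  rw [hy, ← hcd, map_add, sbd_smp, sbd_smp] at hyy
  have h2 : smp K (incl U) n (a - sbd K n y₁) = smp K (incl V) n (b - sbd K n (-y₂)) := by
    rw [map_sub, map_sub, map_neg, map_neg, sub_neg_eq_add]
    rw [← sub_eq_zero] at hyy ⊢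
    rw [← neg_eq_zero, ← hyy]
    abel
  obtain ⟨w, hw1, hw2⟩ := exists_glue h2
  exact ⟨y₁, -y₂, w, hw1, hw2⟩

variable (K U V)

/-- restriction to the two sets -/
noncomputable def mvα (n : ℕ) : Hq K n ↥(U ∩ V) →ₗ[K] Hq K n U × Hq K n V :=
  (Hmap K n (jL U V)).prod (Hmap K n (jR U V))

/-- difference -/
noncomputable def mvβ (n : ℕ) : Hq K n U × Hq K n V →ₗ[K] Hq K n X :=
  (Hmap K n (incl U)).coprod (-(Hmap K n (incl V)))

theorem mvβ_cls {n : ℕ} (a : Zc K U n) (b : Zc K V n) :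
    mvβ K U V n (cls K U n a, cls K V n b) =
      cls K X n (⟨smp K (incl U) n a.1, smp_mem_Zc K _ a.2⟩ -
        ⟨smp K (incl V) n b.1, smp_mem_Zc K _ b.2⟩) := by
  rw [mvβ, LinearMap.coprod_apply, LinearMap.neg_apply, Hmap_cls, Hmap_cls, ← sub_eq_add_neg]
  exact (map_sub (cls K X n) _ _).symm

theorem mvα_cls {n : ℕ} (w : Zc K ↥(U ∩ V) n) :
    mvα K U V n (cls K _ n w) = (cls K U n ⟨smp K (jL U V) n w.1, smp_mem_Zc K _ w.2⟩,
      cls K V n ⟨smp K (jR U V) n w.1, smp_mem_Zc K _ w.2⟩) := by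
  exact Prod.ext (Hmap_cls K (jL U V) w) (Hmap_cls K (jR U V) w)

variable {K U V}

theorem range_mvα (hU : IsOpen U) (hV : IsOpen V) (hUV : U ∪ V = Set.univ) (n : ℕ) :
    LinearMap.range (mvα K U V n) = LinearMap.ker (mvβ K U V n) := by
  apply le_antisymm
  · rintro _ ⟨ξ, rfl⟩
    obtain ⟨w, rfl⟩ := cls_surjective K n ξ
    rw [LinearMap.mem_ker, mvα_cls, mvβ_cls, cls_eq_zero]
    refine ⟨0, ?_⟩
    rw [map_zero]
    symm
    show smp K (incl U) n (smp K (jL U V) n w.1) - smp K (incl V) n (smp K (jR U V) n w.1) = 0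
    rw [← smp_comp, ← smp_comp, incl_jL, incl_jR, sub_self]
  · rintro ⟨ξ, η⟩ h
    obtain ⟨a, rfl⟩ := cls_surjective K n ξ
    obtain ⟨b, rfl⟩ := cls_surjective K n η
    rw [LinearMap.mem_ker, mvβ_cls, cls_eq_zero] at h
    obtain ⟨y₁, y₂, w, hw1, hw2⟩ := exists_small_bdry hU hV hUV h
    have hwc : w ∈ Zc K ↥(U ∩ V) n := by
      cases n with
      | zero => trivial
      | succ n =>
        show sbd K n w = 0
        apply smp_injective (jL_injective U V)
        have ha : sbd K n a.1 = 0 := a.2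
        rw [← sbd_smp, hw1, map_sub, ha, sbd_sbd, sub_zero, map_zero]
    refine ⟨cls K _ n ⟨w, hwc⟩, ?_⟩
    rw [mvα_cls]
    refine Prod.ext ?_ ?_
    · show cls K U n _ = cls K U n a
      rw [← sub_eq_zero, ← map_sub, cls_eq_zero]
      refine ⟨-y₁, ?_⟩
      show _ = smp K (jL U V) n w - a.1
      rw [hw1, map_neg]
      abel
    · show cls K V n _ = cls K V n b
      rw [← sub_eq_zero, ← map_sub, cls_eq_zero]
      refine ⟨-y₂, ?_⟩
      show _ = smp K (jR U V) n w - b.1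
      rw [hw2, map_neg]
      abel

theorem cls_eq_of_bdry {n : ℕ} {z z' : Zc K X n} (h : IsBdry K n (z.1 - z'.1)) :
    cls K X n z = cls K X n z' := by
  rw [← sub_eq_zero, ← map_sub, cls_eq_zero]
  exact h

theorem mvβ_zero_surjective (hU : IsOpen U) (hV : IsOpen V) (hUV : U ∪ V = Set.univ) :
    LinearMap.range (mvβ K U V 0) = ⊤ := by
  rw [LinearMap.range_eq_top]
  intro ξ
  obtain ⟨z, rfl⟩ := cls_surjective K 0 ξ
  obtain ⟨a, b, -, hb⟩ := exists_decomp hU hV hUV ((mem_Zc K).1 z.2)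
  refine ⟨(cls K U 0 ⟨a, trivial⟩, cls K V 0 ⟨b, trivial⟩), ?_⟩
  rw [mvβ_cls]
  exact (cls_eq_of_bdry hb).symm

/-! ### The connecting isomorphism -/

variable (K U V)

/-- chains in `U` and `V` with the same boundary, in the intersection -/
noncomputable def mvT (n : ℕ) :
    Submodule K (SC K U (n + 1) × SC K V (n + 1) × SC K ↥(U ∩ V) n) where
  carrier := {t | smp K (jL U V) n t.2.2 = sbd K n t.1 ∧ smp K (jR U V) n t.2.2 = sbd K n t.2.1}
  add_mem' := by
    rintro s t ⟨h1, h2⟩ ⟨h3, h4⟩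
    constructor
    · show smp K (jL U V) n (s.2.2 + t.2.2) = sbd K n (s.1 + t.1)
      rw [map_add, map_add, h1, h3]
    · show smp K (jR U V) n (s.2.2 + t.2.2) = sbd K n (s.2.1 + t.2.1)
      rw [map_add, map_add, h2, h4]
  zero_mem' := by
    constructor
    · show smp K (jL U V) n 0 = sbd K n 0
      rw [map_zero, map_zero]
    · show smp K (jR U V) n 0 = sbd K n 0
      rw [map_zero, map_zero]
  smul_mem' := by
    rintro r t ⟨h1, h2⟩
    constructor
    · show smp K (jL U V) n (r • t.2.2) = sbd K n (r • t.1)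
      rw [map_smul, map_smul, h1]
    · show smp K (jR U V) n (r • t.2.2) = sbd K n (r • t.2.1)
      rw [map_smul, map_smul, h2]

/-- the cycle in the intersection -/
noncomputable def mvTw (n : ℕ) : mvT K U V n →ₗ[K] Zc K ↥(U ∩ V) n where
  toFun t := ⟨t.1.2.2, isCyc_of_glue t.2.1⟩
  map_add' _ _ := rfl
  map_smul' _ _ := rfl

/-- the cycle in the union -/
noncomputable def mvTz (n : ℕ) : mvT K U V n →ₗ[K] Zc K X (n + 1) where
  toFun t := ⟨smp K (incl U) (n + 1) t.1.1 - smp K (incl V) (n + 1) t.1.2.1, by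
    show sbd K n _ = 0
    rw [map_sub, sbd_smp, sbd_smp, ← t.2.1, ← t.2.2, ← smp_comp, ← smp_comp, incl_jL, incl_jR,
      sub_self]⟩
  map_add' s t := by
    apply Subtype.ext
    show smp K (incl U) (n + 1) (s.1.1 + t.1.1) - smp K (incl V) (n + 1) (s.1.2.1 + t.1.2.1) =
      (smp K (incl U) (n + 1) s.1.1 - smp K (incl V) (n + 1) s.1.2.1) +
      (smp K (incl U) (n + 1) t.1.1 - smp K (incl V) (n + 1) t.1.2.1)
    rw [map_add, map_add]
    abel
  map_smul' r t := by
    apply Subtype.ext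
    show smp K (incl U) (n + 1) (r • t.1.1) - smp K (incl V) (n + 1) (r • t.1.2.1) =
      r • (smp K (incl U) (n + 1) t.1.1 - smp K (incl V) (n + 1) t.1.2.1)
    rw [map_smul, map_smul, smul_sub]

/-- the projection to the kernel of `mvα` -/
noncomputable def mvp (n : ℕ) : mvT K U V n →ₗ[K] LinearMap.ker (mvα K U V n) :=
  LinearMap.codRestrict _ ((cls K _ n) ∘ₗ (mvTw K U V n)) (by
    intro t
    rw [LinearMap.mem_ker, LinearMap.comp_apply, mvα_cls]
    refine Prod.ext ?_ ?_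
    · show cls K U n _ = 0
      rw [cls_eq_zero]
      exact ⟨t.1.1, t.2.1.symm⟩
    · show cls K V n _ = 0
      rw [cls_eq_zero]
      exact ⟨t.1.2.1, t.2.2.symm⟩)

/-- the projection to the cokernel of `mvβ` -/
noncomputable def mvq (n : ℕ) :
    mvT K U V n →ₗ[K] (Hq K (n + 1) X ⧸ LinearMap.range (mvβ K U V (n + 1))) :=
  (LinearMap.range (mvβ K U V (n + 1))).mkQ ∘ₗ (cls K X (n + 1)) ∘ₗ (mvTz K U V n)

variable {K U V}

theorem mvp_surjective (n : ℕ) : Function.Surjective (mvp K U V n) := by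
  rintro ⟨ξ, hξ⟩
  obtain ⟨w, rfl⟩ := cls_surjective K n ξ
  rw [LinearMap.mem_ker, mvα_cls] at hξ
  obtain ⟨a, ha⟩ := (cls_eq_zero K _).1 (congrArg Prod.fst hξ)
  obtain ⟨b, hb⟩ := (cls_eq_zero K _).1 (congrArg Prod.snd hξ)
  refine ⟨⟨(a, b, w.1), ha.symm, hb.symm⟩, ?_⟩
  apply Subtype.ext
  rfl

theorem mvq_surjective (hU : IsOpen U) (hV : IsOpen V) (hUV : U ∪ V = Set.univ) (n : ℕ) :
    Function.Surjective (mvq K U V n) := by
  intro ζ
  obtain ⟨ξ, rfl⟩ := Submodule.mkQ_surjective _ ζ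
  obtain ⟨z, rfl⟩ := cls_surjective K (n + 1) ξ
  obtain ⟨a, b, hc, hb⟩ := exists_decomp hU hV hUV ((mem_Zc K).1 z.2)
  have h1 : smp K (incl U) n (sbd K n a) = smp K (incl V) n (sbd K n b) := by
    have h2 : sbd K n (smp K (incl U) (n + 1) a - smp K (incl V) (n + 1) b) = 0 := hc
    rw [map_sub, sbd_smp, sbd_smp] at h2
    exact sub_eq_zero.1 h2
  obtain ⟨w, hw1, hw2⟩ := exists_glue h1
  refine ⟨⟨(a, b, w), hw1, hw2⟩, ?_⟩
  show (LinearMap.range (mvβ K U V (n + 1))).mkQ (cls K X (n + 1) _) = _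
  congr 1
  exact (cls_eq_of_bdry hb).symm

theorem ker_mvp (hU : IsOpen U) (hV : IsOpen V) (hUV : U ∪ V = Set.univ) (n : ℕ) :
    LinearMap.ker (mvp K U V n) = LinearMap.ker (mvq K U V n) := by
  apply le_antisymm
  · intro t ht
    have h1 : cls K _ n (mvTw K U V n t) = 0 := congrArg Subtype.val (LinearMap.mem_ker.1 ht)
    obtain ⟨y, hy⟩ := (cls_eq_zero K _).1 h1
    have hy' : sbd K n y = t.1.2.2 := hy
    rw [LinearMap.mem_ker]
    show (LinearMap.range (mvβ K U V (n + 1))).mkQ (cls K X (n + 1) _) = 0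
    rw [Submodule.mkQ_apply, Submodule.Quotient.mk_eq_zero]
    have ca : t.1.1 - smp K (jL U V) (n + 1) y ∈ Zc K U (n + 1) := by
      show sbd K n _ = 0
      rw [map_sub, sbd_smp, hy', t.2.1, sub_self]
    have cb : t.1.2.1 - smp K (jR U V) (n + 1) y ∈ Zc K V (n + 1) := by
      show sbd K n _ = 0
      rw [map_sub, sbd_smp, hy', t.2.2, sub_self]
    refine ⟨(cls K U (n + 1) ⟨_, ca⟩, cls K V (n + 1) ⟨_, cb⟩), ?_⟩
    rw [mvβ_cls]
    congr 1
    apply Subtype.ext
    show smp K (incl U) (n + 1) (t.1.1 - smp K (jL U V) (n + 1) y) -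
      smp K (incl V) (n + 1) (t.1.2.1 - smp K (jR U V) (n + 1) y) =
      smp K (incl U) (n + 1) t.1.1 - smp K (incl V) (n + 1) t.1.2.1
    rw [map_sub, map_sub, ← smp_comp, ← smp_comp, incl_jL, incl_jR]
    abel
  · intro t ht
    have h1 : (LinearMap.range (mvβ K U V (n + 1))).mkQ
        (cls K X (n + 1) (mvTz K U V n t)) = 0 := LinearMap.mem_ker.1 ht
    rw [Submodule.mkQ_apply, Submodule.Quotient.mk_eq_zero] at h1
    obtain ⟨⟨ξ, η⟩, hξ⟩ := h1
    obtain ⟨a, rfl⟩ := cls_surjective K (n + 1) ξ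
    obtain ⟨b, rfl⟩ := cls_surjective K (n + 1) η
    rw [mvβ_cls, ← sub_eq_zero, ← map_sub, cls_eq_zero] at hξ
    have h2 : IsBdry K (n + 1) (smp K (incl U) (n + 1) (a.1 - t.1.1) -
        smp K (incl V) (n + 1) (b.1 - t.1.2.1)) := by
      rw [map_sub, map_sub]
      have e : smp K (incl U) (n + 1) a.1 - smp K (incl V) (n + 1) b.1 -
        (smp K (incl U) (n + 1) t.1.1 - smp K (incl V) (n + 1) t.1.2.1) =
        smp K (incl U) (n + 1) a.1 - smp K (incl U) (n + 1) t.1.1 -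
        (smp K (incl V) (n + 1) b.1 - smp K (incl V) (n + 1) t.1.2.1) := by abel
      rw [← e]
      exact hξ
    obtain ⟨y₁, y₂, w, hw1, hw2⟩ := exists_small_bdry hU hV hUV h2
    rw [LinearMap.mem_ker]
    apply Subtype.ext
    show cls K _ n (mvTw K U V n t) = 0
    rw [cls_eq_zero]
    refine ⟨-w, ?_⟩
    show _ = t.1.2.2
    apply smp_injective (jL_injective U V)
    have ha : sbd K n a.1 = 0 := a.2
    rw [map_neg, map_neg, ← sbd_smp, hw1, t.2.1, map_sub, map_sub, ha, sbd_sbd]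
    abel

/-- the connecting isomorphism -/
theorem exists_mvConn (hU : IsOpen U) (hV : IsOpen V) (hUV : U ∪ V = Set.univ) (n : ℕ) :
    Nonempty (LinearMap.ker (mvα K U V n) ≃ₗ[K]
      (Hq K (n + 1) X ⧸ LinearMap.range (mvβ K U V (n + 1)))) :=
  exists_equiv_of_ker_eq (mvp K U V n) (mvq K U V n) (mvp_surjective n)
    (mvq_surjective hU hV hUV n) (ker_mvp hU hV hUV n)

end mv

end Pool.Agent.Lib.SingHom
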