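import Pool.Agent.Lib.SingHom.Cls

/-!
# `Kills` in terms of Mathlib's singular homology
-/

set_option linter.unusedSectionVars false

open CategoryTheory Limits AlgebraicTopology Opposite HoloConj Polynomial

namespace Pool.Agent.Lib.SingHom

section

variable (K : Type) [Field K] {X : Type} [TopologicalSpace X]

/-- the restriction of the induced map to cycles -/
noncomputable def smpZ (f : C(X, X)) (n : ℕ) : Module.End K (Zc K X n) :=
  (smp K f n).restrict (fun _ h => smp_mem_Zc K f h)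

theorem aeval_smpZ (f : C(X, X)) (n : ℕ) (p : K[X]) (z : Zc K X n) :
    (aeval (smpZ K f n) p z).1 = pact K f p n z.1 :=
  aeval_comm (smpZ K f n) (smp K f n : Module.End K (SC K X n)) (Zc K X n).subtype
    (fun _ => rfl) p z

theorem aeval_Hmap_cls (f : C(X, X)) (n : ℕ) (p : K[X]) (z : Zc K X n) :
    aeval (Hmap K n f : Module.End K (Hq K n X)) p (cls K X n z) =
      cls K X n (aeval (smpZ K f n) p z) :=
  (aeval_comm (smpZ K f n) (Hmap K n f : Module.End K (Hq K n X)) (cls K X n)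
    (fun z => (Hmap_cls K f z).symm) p z).symm

theorem kills_iff (f : C(X, X)) (n : ℕ) (p : K[X]) :
    Kills K f n p ↔ aeval (Hmap K n f : Module.End K (Hq K n X)) p = 0 := by
  constructor
  · intro h
    apply LinearMap.ext
    intro ξ
    obtain ⟨z, rfl⟩ := cls_surjective K n ξ
    rw [aeval_Hmap_cls, LinearMap.zero_apply, cls_eq_zero, aeval_smpZ]
    exact h z.1 ((mem_Zc K).1 z.2)
  · intro h z hz
    have h1 := aeval_Hmap_cls K f n p ⟨z, (mem_Zc K).2 hz⟩
    rw [h, LinearMap.zero_apply] at h1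
    have h2 := (cls_eq_zero K _).1 h1.symm
    rw [aeval_smpZ] at h2
    exact h2

theorem kills_pow_iff (f : C(X, X)) (n a : ℕ) :
    Kills K f n ((Polynomial.X - 1) ^ a) ↔ (Hmap K n f - 1 : Module.End K (Hq K n X)) ^ a = 0 := by
  rw [kills_iff, map_pow, map_sub, aeval_X, map_one]

/-- Mayer–Vietoris for unipotent endomorphisms -/
theorem unip_mv {U V : Set X} (hU : IsOpen U) (hV : IsOpen V) (hUV : U ∪ V = Set.univ)
    (S : C(X, X)) (SU : C(U, U)) (SV : C(V, V)) (SW : C(↥(U ∩ V), ↥(U ∩ V)))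
    (hSU : ∀ x, (SU x : X) = S x) (hSV : ∀ x, (SV x : X) = S x) (hSW : ∀ x, (SW x : X) = S x)
    (a b : ℕ) (HU : ∀ q, (Hmap K q SU - 1 : Module.End K _) ^ a = 0)
    (HV : ∀ q, (Hmap K q SV - 1 : Module.End K _) ^ a = 0)
    (HW : ∀ q, (Hmap K q SW - 1 : Module.End K _) ^ b = 0) (q : ℕ) :
    (Hmap K q S - 1 : Module.End K _) ^ (a + b) = 0 := by
  rw [← kills_pow_iff, pow_add]
  cases q with
  | zero =>
    exact (kills_mv_zero hU hV hUV S SU SV hSU hSV ((kills_pow_iff K _ _ _).2 (HU 0))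
      ((kills_pow_iff K _ _ _).2 (HV 0))).mul_right _
  | succ n =>
    exact kills_mv hU hV hUV S SU SV SW hSU hSV hSW n ((kills_pow_iff K _ _ _).2 (HU (n + 1)))
      ((kills_pow_iff K _ _ _).2 (HV (n + 1))) ((kills_pow_iff K _ _ _).2 (HW n))

end

end Pool.Agent.Lib.SingHom
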