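import Pool.Agent.Lib.SingHom.Ord

/-!
# Affine maps between standard simplices
-/

set_option linter.unusedSectionVars false

namespace Pool.Agent.Lib.SingHom

universe u v

/-- the standard simplex of dimension `n` -/
abbrev Sx (n : ℕ) : Type := stdSimplex ℝ (Fin (n + 1))

section

variable {ι κ μ : Type} [Fintype ι] [Fintype κ] [Fintype μ]

/-- the affine map between standard simplices with given values on the vertices -/
noncomputable def affFun (v : ι → stdSimplex ℝ κ) (t : stdSimplex ℝ ι) : stdSimplex ℝ κ :=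
  ⟨fun k => ∑ i, t i * v i k, fun k => Finset.sum_nonneg fun i _ =>
    mul_nonneg (stdSimplex.zero_le t i) (stdSimplex.zero_le (v i) k), by
    rw [Finset.sum_comm]
    have : ∀ i, ∑ k, t i * v i k = t i := by
      intro i
      rw [← Finset.mul_sum, stdSimplex.sum_eq_one, mul_one]
    simp_rw [this]
    exact stdSimplex.sum_eq_one t⟩

theorem affFun_apply (v : ι → stdSimplex ℝ κ) (t : stdSimplex ℝ ι) (k : κ) :
    affFun v t k = ∑ i, t i * v i k := rfl

theorem continuous_affFun (v : ι → stdSimplex ℝ κ) : Continuous (affFun v) := by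
  apply Continuous.subtype_mk
  apply continuous_pi
  intro k
  apply continuous_finsetSum
  intro i _
  exact ((continuous_apply i).comp continuous_subtype_val).mul continuous_const

/-- the affine map as a continuous map -/
noncomputable def aff (v : ι → stdSimplex ℝ κ) : C(stdSimplex ℝ ι, stdSimplex ℝ κ) :=
  ⟨affFun v, continuous_affFun v⟩

theorem aff_apply (v : ι → stdSimplex ℝ κ) (t : stdSimplex ℝ ι) (k : κ) :
    aff v t k = ∑ i, t i * v i k := rfl

theorem aff_vertex [DecidableEq ι] (v : ι → stdSimplex ℝ κ) (i : ι) :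
    aff v (stdSimplex.vertex i) = v i := by
  apply stdSimplex.ext
  funext k
  rw [aff_apply]
  simp [Pi.single_apply]

theorem aff_aff (u : κ → stdSimplex ℝ μ) (v : ι → stdSimplex ℝ κ) (t : stdSimplex ℝ ι) :
    aff u (aff v t) = aff (fun i => aff u (v i)) t := by
  apply stdSimplex.ext
  funext k
  simp only [aff_apply, Finset.sum_mul, Finset.mul_sum]
  rw [Finset.sum_comm]
  apply Finset.sum_congr rfl
  intro i _
  apply Finset.sum_congr rfl
  intro j _
  ring

theorem aff_comp (u : κ → stdSimplex ℝ μ) (v : ι → stdSimplex ℝ κ) :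
    (aff u).comp (aff v) = aff (fun i => aff u (v i)) := by
  ext1 t
  exact aff_aff u v t

theorem aff_id [DecidableEq ι] : aff (fun i : ι => (stdSimplex.vertex i : stdSimplex ℝ ι)) =
    ContinuousMap.id _ := by
  ext1 t
  apply stdSimplex.ext
  funext k
  rw [aff_apply, ContinuousMap.id_apply]
  simp [Pi.single_apply]

/-- the map induced by a map of index sets, as a continuous map -/
noncomputable def smap (f : ι → κ) : C(stdSimplex ℝ ι, stdSimplex ℝ κ) :=
  ⟨stdSimplex.map f, stdSimplex.continuous_map f⟩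

theorem smap_eq_aff [DecidableEq κ] (f : ι → κ) :
    smap f = aff (fun i => (stdSimplex.vertex (f i) : stdSimplex ℝ κ)) := by
  classical
  ext1 t
  apply stdSimplex.ext
  funext k
  rw [aff_apply]
  show FunOnFinite.linearMap ℝ ℝ f t k = _
  rw [FunOnFinite.linearMap_apply_apply]
  simp only [stdSimplex.vertex_coe, Pi.single_apply, mul_ite, mul_one, mul_zero]
  rw [Finset.sum_filter]
  apply Finset.sum_congr rfl
  intro i _
  by_cases h : f i = k
  · rw [if_pos h, if_pos h.symm]
  · rw [if_neg h, if_neg (fun h' => h h'.symm)]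

theorem aff_smap (v : κ → stdSimplex ℝ μ) (f : ι → κ) :
    (aff v).comp (smap f) = aff (v ∘ f) := by
  classical
  rw [smap_eq_aff, aff_comp]
  congr 1
  funext i
  exact aff_vertex v (f i)

/-- the barycentre of a tuple of points -/
noncomputable def bary (n m : ℕ) (v : Fin (m + 1) → Sx n) : Sx n := aff v stdSimplex.barycenter

theorem aff_bary {n n' : ℕ} (u : Fin (n + 1) → Sx n') (m : ℕ) (v : Fin (m + 1) → Sx n) :
    aff u (bary n m v) = bary n' m (fun i => aff u (v i)) := by
  rw [bary, bary, aff_aff]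

end

/-! ### Distances -/

section

variable {ι κ : Type} [Fintype ι] [Fintype κ]

/-- pairwise distances at most `d` -/
def Spread (d : ℝ) (v : ι → stdSimplex ℝ κ) : Prop := ∀ i j, dist (v i) (v j) ≤ d

theorem dist_coord (x y : stdSimplex ℝ κ) (k : κ) : |x k - y k| ≤ dist x y := by
  have h : dist (x.1 k) (y.1 k) ≤ dist x.1 y.1 := dist_le_pi_dist x.1 y.1 k
  rw [Real.dist_eq] at h
  exact h

theorem dist_le_of_coord {x y : stdSimplex ℝ κ} {d : ℝ} (hd : 0 ≤ d)
    (h : ∀ k, |x k - y k| ≤ d) : dist x y ≤ d := by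
  have h1 : dist x.1 y.1 ≤ d := (dist_pi_le_iff hd).2 (fun k => by
    rw [Real.dist_eq]
    exact h k)
  exact h1

theorem dist_aff_left {d : ℝ} (hd : 0 ≤ d) (v : ι → stdSimplex ℝ κ) (y : stdSimplex ℝ κ)
    (h : ∀ i, dist (v i) y ≤ d) (t : stdSimplex ℝ ι) : dist (aff v t) y ≤ d := by
  apply dist_le_of_coord hd
  intro k
  rw [aff_apply]
  have e : y k = ∑ i, t i * y k := by
    rw [← Finset.sum_mul, stdSimplex.sum_eq_one, one_mul]
  rw [e, ← Finset.sum_sub_distrib]
  calc |∑ i, (t i * v i k - t i * y k)| ≤ ∑ i, |t i * v i k - t i * y k| :=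
        Finset.abs_sum_le_sum_abs _ _
    _ ≤ ∑ i, t i * d := by
        apply Finset.sum_le_sum
        intro i _
        rw [← mul_sub, abs_mul, abs_of_nonneg (stdSimplex.zero_le t i)]
        exact mul_le_mul_of_nonneg_left ((dist_coord _ _ k).trans (h i)) (stdSimplex.zero_le t i)
    _ = d := by rw [← Finset.sum_mul, stdSimplex.sum_eq_one, one_mul]

theorem Spread.dist_aff {d : ℝ} (hd : 0 ≤ d) {v : ι → stdSimplex ℝ κ} (h : Spread d v)
    (s t : stdSimplex ℝ ι) : dist (aff v s) (aff v t) ≤ d := by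
  apply dist_aff_left hd
  intro i
  rw [dist_comm]
  apply dist_aff_left hd
  intro j
  exact h j i

theorem Spread.dist_bary {n m : ℕ} {d : ℝ} (hd : 0 ≤ d) {v : Fin (m + 1) → Sx n}
    (h : Spread d v) (t : Sx m) : dist (bary n m v) (aff v t) ≤ (m : ℝ) / (m + 1) * d := by
  have hm : (0 : ℝ) < m + 1 := by positivity
  have hd' : 0 ≤ (m : ℝ) / (m + 1) * d := by positivity
  rw [dist_comm]
  apply dist_aff_left hd'
  intro j
  rw [dist_comm]
  apply dist_le_of_coord hd'
  intro k
  have e1 : bary n m v k = ∑ i, ((m : ℝ) + 1)⁻¹ * v i k := by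
    rw [bary, aff_apply]
    apply Finset.sum_congr rfl
    intro i _
    congr 1
    show ((Fintype.card (Fin (m + 1)) : ℝ))⁻¹ = _
    rw [Fintype.card_fin]
    push_cast
    rfl
  have e2 : v j k = ∑ _i : Fin (m + 1), ((m : ℝ) + 1)⁻¹ * v j k := by
    rw [Finset.sum_const, Finset.card_univ, Fintype.card_fin, nsmul_eq_mul]
    push_cast
    field_simp
  rw [e1]
  conv_lhs => rw [e2]
  rw [← Finset.sum_sub_distrib]
  calc |∑ i, (((m : ℝ) + 1)⁻¹ * v i k - ((m : ℝ) + 1)⁻¹ * v j k)|
      ≤ ∑ i, |((m : ℝ) + 1)⁻¹ * v i k - ((m : ℝ) + 1)⁻¹ * v j k| :=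
        Finset.abs_sum_le_sum_abs _ _
    _ ≤ ∑ i, (if i = j then 0 else ((m : ℝ) + 1)⁻¹ * d) := by
        apply Finset.sum_le_sum
        intro i _
        by_cases hij : i = j
        · rw [if_pos hij, hij, sub_self, abs_zero]
        · rw [if_neg hij, ← mul_sub, abs_mul, abs_of_pos (inv_pos.2 hm)]
          exact mul_le_mul_of_nonneg_left ((dist_coord _ _ k).trans (h i j)) (inv_pos.2 hm).le
    _ = (m : ℝ) / (m + 1) * d := by
        rw [Finset.sum_ite, Finset.sum_const_zero, zero_add, Finset.sum_const, nsmul_eq_mul]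
        have : (Finset.univ.filter (fun i : Fin (m + 1) => ¬ i = j)).card = m := by
          rw [Finset.filter_not, Finset.filter_eq' , if_pos (Finset.mem_univ j),
            Finset.card_sdiff, Finset.card_univ, Fintype.card_fin]
          simp
        rw [this]
        field_simp

end

end Pool.Agent.Lib.SingHom
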