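import Pool.Agent.Lib.SingHom.Compare
import Pool.Agent.Lib.MP_ed311f_ag.Hlem

/-!
# Classes of elementary singular cycles in Mathlib's singular homology
-/

set_option linter.unusedSectionVars false

open CategoryTheory Limits AlgebraicTopology Opposite HoloConj

namespace Pool.Agent.Lib.SingHom

section general

variable {K : Type} [Field K] (C : ChainComplex (ModuleCat.{0} K) ℕ) (n : ℕ)

theorem exists_boundary_iff (m : ℕ) (hm : (ComplexShape.down ℕ).prev n = m) (z : C.X n) :
    (∃ y : C.X ((ComplexShape.down ℕ).prev n), (C.d _ n).hom y = z) ↔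
      ∃ y : C.X m, (C.d m n).hom y = z := by
  subst hm
  rfl

theorem homologyπ_surjective : Function.Surjective (C.homologyπ n).hom :=
  (ModuleCat.epi_iff_surjective _).1 inferInstance

theorem iCycles_injective : Function.Injective (C.iCycles n).hom :=
  (ModuleCat.mono_iff_injective _).1 inferInstance

theorem homologyπ_eq_zero_iff (c : C.cycles n) :
    (C.homologyπ n).hom c = 0 ↔ ∃ y : C.X (n + 1), (C.d (n + 1) n).hom y = (C.iCycles n).hom c := by
  rw [← exists_boundary_iff C n (n + 1) (by simp)]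
  let S := C.sc n
  have h1 : (S.moduleCatHomologyIso.hom).hom ((S.homologyπ).hom c) =
      (S.moduleCatLeftHomologyData.π).hom ((S.moduleCatCyclesIso.hom).hom c) :=
    congrArg (fun g => g.hom c) S.π_moduleCatCyclesIso_hom
  have h2 : ((S.moduleCatLeftHomologyData.i).hom ((S.moduleCatCyclesIso.hom).hom c)) =
      (S.iCycles).hom c := congrArg (fun g => g.hom c) S.moduleCatCyclesIso_hom_i
  have hinj : Function.Injective (S.moduleCatHomologyIso.hom).hom :=
    (ModuleCat.mono_iff_injective _).1 inferInstance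
  have h3 : (S.homologyπ).hom c = 0 ↔
      (S.moduleCatLeftHomologyData.π).hom ((S.moduleCatCyclesIso.hom).hom c) = 0 := by
    rw [← h1]
    constructor
    · intro h
      rw [h, map_zero]
    · intro h
      exact hinj (h.trans (map_zero _).symm)
  refine h3.trans ?_
  have h4 : (S.moduleCatLeftHomologyData.π).hom ((S.moduleCatCyclesIso.hom).hom c) = 0 ↔
      ((S.moduleCatCyclesIso.hom).hom c : LinearMap.ker S.g.hom) ∈
        LinearMap.range S.moduleCatToCycles := Submodule.Quotient.mk_eq_zero _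
  refine h4.trans ?_
  constructor
  · rintro ⟨y, hy⟩
    refine ⟨y, ?_⟩
    refine Eq.trans ?_ h2
    exact congrArg Subtype.val hy
  · rintro ⟨y, hy⟩
    refine ⟨y, ?_⟩
    apply Subtype.ext
    exact Eq.trans hy h2.symm

theorem iCycles_d (c : C.cycles n) (j : ℕ) : (C.d n j).hom ((C.iCycles n).hom c) = 0 :=
  congrArg (fun g => g.hom c) (C.iCycles_d n j)

end general

section

variable (K : Type) [Field K] {X X' : Type} [TopologicalSpace X] [TopologicalSpace X']

/-- the space of cycles -/
noncomputable def Zc (X : Type) [TopologicalSpace X] : (n : ℕ) → Submodule K (SC K X n)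
  | 0 => ⊤
  | n + 1 => LinearMap.ker (sbd K n)

theorem mem_Zc {n : ℕ} {z : SC K X n} : z ∈ Zc K X n ↔ IsCyc K n z := by
  cases n with
  | zero => exact ⟨fun _ => trivial, fun _ => trivial⟩
  | succ n => exact Iff.rfl

theorem d_eq_zero_iff {n : ℕ} {z : SC K X n} :
    z ∈ Zc K X n ↔ ((CC K X).d n ((ComplexShape.down ℕ).next n)).hom (cmp K n z) = 0 := by
  cases n with
  | zero =>
    have : (CC K X).d 0 ((ComplexShape.down ℕ).next 0) = 0 :=
      HomologicalComplex.shape _ _ _ (by simp)
    rw [this]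
    exact ⟨fun _ => rfl, fun _ => trivial⟩
  | succ n =>
    have e : (ComplexShape.down ℕ).next (n + 1) = n := by simp
    rw [e, cmp_d]
    constructor
    · intro h
      have h' : sbd K n z = 0 := h
      rw [h', map_zero]
    · intro h
      exact cmp_injective K n (h.trans (map_zero _).symm)

/-- the cycle of Mathlib's complex given by an elementary cycle -/
noncomputable def zlift (X : Type) [TopologicalSpace X] (n : ℕ) :
    ModuleCat.of K (Zc K X n) ⟶ (CC K X).cycles n :=
  (CC K X).liftCycles (ModuleCat.ofHom ((cmp K n) ∘ₗ (Zc K X n).subtype)) _ rfl (by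
    ext z
    exact (d_eq_zero_iff K).1 z.2)

theorem iCycles_zlift {n : ℕ} (z : Zc K X n) :
    ((CC K X).iCycles n).hom ((zlift K X n).hom z) = cmp K n z.1 :=
  congrArg (fun g : ModuleCat.of K (Zc K X n) ⟶ (CC K X).X n => g.hom z)
    ((CC K X).liftCycles_i _ _ _ _)

/-- the homology class of a cycle -/
noncomputable def cls (X : Type) [TopologicalSpace X] (n : ℕ) : Zc K X n →ₗ[K] Hq K n X :=
  (zlift K X n ≫ (CC K X).homologyπ n).hom

theorem cls_surjective (n : ℕ) : Function.Surjective (cls K X n) := by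
  intro h
  obtain ⟨c, hc⟩ := homologyπ_surjective (CC K X) n h
  have h1 : cmpInv K n (((CC K X).iCycles n).hom c) ∈ Zc K X n := by
    rw [d_eq_zero_iff, cmp_cmpInv]
    exact iCycles_d _ _ _ _
  refine ⟨⟨_, h1⟩, ?_⟩
  rw [← hc]
  show ((CC K X).homologyπ n).hom ((zlift K X n).hom _) = _
  congr 1
  apply iCycles_injective
  rw [iCycles_zlift]
  exact cmp_cmpInv K n _

theorem cls_eq_zero {n : ℕ} (z : Zc K X n) : cls K X n z = 0 ↔ IsBdry K n z.1 := by
  have h := homologyπ_eq_zero_iff (CC K X) n ((zlift K X n).hom z)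
  rw [iCycles_zlift] at h
  refine Iff.trans h ?_
  constructor
  · rintro ⟨y, hy⟩
    refine ⟨cmpInv K (n + 1) y, ?_⟩
    apply cmp_injective K n
    rw [← cmp_d, cmp_cmpInv]
    exact hy
  · rintro ⟨y, hy⟩
    refine ⟨cmp K (n + 1) y, ?_⟩
    rw [cmp_d, hy]

theorem smp_mem_Zc (f : C(X, X')) {n : ℕ} {z : SC K X n} (h : z ∈ Zc K X n) :
    smp K f n z ∈ Zc K X' n :=
  (mem_Zc K).2 (((mem_Zc K).1 h).smp f)

theorem Hmap_cls (f : C(X, X')) {n : ℕ} (z : Zc K X n) :
    Hmap K n f (cls K X n z) = cls K X' n ⟨smp K f n z.1, smp_mem_Zc K f z.2⟩ := by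
  have h1 : (CC K X).homologyπ n ≫ HomologicalComplex.homologyMap (CCmap K f) n =
      HomologicalComplex.cyclesMap (CCmap K f) n ≫ (CC K X').homologyπ n :=
    HomologicalComplex.homologyπ_naturality _ _
  have h2 := congrArg (fun g => g.hom ((zlift K X n).hom z)) h1
  refine Eq.trans h2 ?_
  show ((CC K X').homologyπ n).hom ((HomologicalComplex.cyclesMap (CCmap K f) n).hom _) =
    ((CC K X').homologyπ n).hom ((zlift K X' n).hom _)
  congr 1
  apply iCycles_injective
  rw [iCycles_zlift]
  have h3 := congrArg (fun g => g.hom ((zlift K X n).hom z))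
    (HomologicalComplex.cyclesMap_i (CCmap K f) n)
  refine Eq.trans h3 ?_
  show ((CCmap K f).f n).hom (((CC K X).iCycles n).hom ((zlift K X n).hom z)) = _
  rw [iCycles_zlift, cmp_map]

end

end Pool.Agent.Lib.SingHom
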