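import Pool.Agent.Lib.SingHom.MV

/-!
# Homotopy invariance
-/

set_option linter.unusedSectionVars false

namespace Pool.Agent.Lib.SingHom

open Polynomial

universe u v

section

variable (R : Type v) [CommRing R] {Y Y' Z : Type u} (z₀ z₁ : Z)

/-- the prism operator on ordered chains -/
noncomputable def pr : (n : ℕ) → Ch R Y n →ₗ[R] Ch R (Y × Z) (n + 1)
  | 0 => Finsupp.linearCombination R
      (fun v => cone R (v 0, z₀) 0
        (Finsupp.single (fun i => (v i, z₁)) 1 - Finsupp.single (fun i => (v i, z₀)) 1))
  | n + 1 => Finsupp.linearCombination R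
      (fun v => cone R (v 0, z₀) (n + 1)
        (Finsupp.single (fun i => (v i, z₁)) 1 - Finsupp.single (fun i => (v i, z₀)) 1 -
          pr n (bd R n (Finsupp.single v 1))))

theorem pr_zero_single (v : Fin 1 → Y) : pr R z₀ z₁ 0 (Finsupp.single v 1) =
    cone R (v 0, z₀) 0
      (Finsupp.single (fun i => (v i, z₁)) 1 - Finsupp.single (fun i => (v i, z₀)) 1) := by
  rw [pr, Finsupp.linearCombination_single, one_smul]

theorem pr_succ_single {n : ℕ} (v : Fin (n + 2) → Y) : pr R z₀ z₁ (n + 1) (Finsupp.single v 1) =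
    cone R (v 0, z₀) (n + 1)
      (Finsupp.single (fun i => (v i, z₁)) 1 - Finsupp.single (fun i => (v i, z₀)) 1 -
        pr R z₀ z₁ n (bd R n (Finsupp.single v 1))) := by
  rw [pr, Finsupp.linearCombination_single, one_smul]

theorem bd_pr_zero (c : Ch R Y 0) : bd R 0 (pr R z₀ z₁ 0 c) =
    mp R (fun y => (y, z₁)) 0 c - mp R (fun y => (y, z₀)) 0 c := by
  have h : (bd R 0) ∘ₗ (pr R z₀ z₁ 0) =
      mp R (fun y : Y => (y, z₁)) 0 - mp R (fun y : Y => (y, z₀)) 0 := by
    apply lin_ext
    intro v
    rw [LinearMap.comp_apply, pr_zero_single, bd_cone_zero, map_sub, eps_single, eps_single,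
      sub_self, zero_smul, sub_zero, LinearMap.sub_apply, mp_single, mp_single]
    rfl
  exact LinearMap.congr_fun h c

theorem bd_pr (n : ℕ) (c : Ch R Y (n + 1)) :
    bd R (n + 1) (pr R z₀ z₁ (n + 1) c) + pr R z₀ z₁ n (bd R n c) =
    mp R (fun y => (y, z₁)) (n + 1) c - mp R (fun y => (y, z₀)) (n + 1) c := by
  have key : ∀ n, (bd R (n + 1)) ∘ₗ (pr R z₀ z₁ (n + 1)) + (pr R z₀ z₁ n) ∘ₗ (bd R n) =
      mp R (fun y : Y => (y, z₁)) (n + 1) - mp R (fun y : Y => (y, z₀)) (n + 1) := by
    intro n
    induction n with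
    | zero =>
      apply lin_ext
      intro v
      have e1 : bd R 0 (Finsupp.single (fun i => (v i, z₁)) 1) =
          mp R (fun y : Y => (y, z₁)) 0 (bd R 0 (Finsupp.single v 1)) := by
        rw [← bd_mp, mp_single]
        rfl
      have e0 : bd R 0 (Finsupp.single (fun i => (v i, z₀)) 1) =
          mp R (fun y : Y => (y, z₀)) 0 (bd R 0 (Finsupp.single v 1)) := by
        rw [← bd_mp, mp_single]
        rfl
      have e2 : bd R 0 (Finsupp.single (fun i => (v i, z₁)) 1 -
          Finsupp.single (fun i => (v i, z₀)) 1 -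
            pr R z₀ z₁ 0 (bd R 0 (Finsupp.single v 1))) = 0 := by
        rw [map_sub, map_sub, e1, e0, bd_pr_zero, sub_self]
      rw [LinearMap.add_apply, LinearMap.comp_apply, LinearMap.comp_apply, pr_succ_single,
        bd_cone, e2, map_zero, sub_zero, sub_add_cancel, LinearMap.sub_apply, mp_single, mp_single]
      rfl
    | succ n ih =>
      apply lin_ext
      intro v
      have h1 := LinearMap.congr_fun ih (bd R (n + 1) (Finsupp.single v 1))
      rw [LinearMap.add_apply, LinearMap.comp_apply, LinearMap.comp_apply, bd_bd, map_zero,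
        add_zero, LinearMap.sub_apply] at h1
      have h2 : bd R (n + 1) (pr R z₀ z₁ (n + 1) (bd R (n + 1) (Finsupp.single v 1))) =
        mp R (fun y : Y => (y, z₁)) (n + 1) (bd R (n + 1) (Finsupp.single v 1)) -
        mp R (fun y : Y => (y, z₀)) (n + 1) (bd R (n + 1) (Finsupp.single v 1)) := h1
      have e1 : bd R (n + 1) (Finsupp.single (fun i => (v i, z₁)) 1) =
          mp R (fun y : Y => (y, z₁)) (n + 1) (bd R (n + 1) (Finsupp.single v 1)) := by
        rw [← bd_mp, mp_single]
        rfl
      have e0 : bd R (n + 1) (Finsupp.single (fun i => (v i, z₀)) 1) =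
          mp R (fun y : Y => (y, z₀)) (n + 1) (bd R (n + 1) (Finsupp.single v 1)) := by
        rw [← bd_mp, mp_single]
        rfl
      have e2 : bd R (n + 1) (Finsupp.single (fun i => (v i, z₁)) 1 -
          Finsupp.single (fun i => (v i, z₀)) 1 -
            pr R z₀ z₁ (n + 1) (bd R (n + 1) (Finsupp.single v 1))) = 0 := by
        rw [map_sub, map_sub, e1, e0, h2, sub_self]
      rw [LinearMap.add_apply, LinearMap.comp_apply, LinearMap.comp_apply, pr_succ_single,
        bd_cone, e2, map_zero, sub_zero, sub_add_cancel, LinearMap.sub_apply, mp_single, mp_single]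
      rfl
  exact LinearMap.congr_fun (key n) c

theorem pr_mp (g : Y → Y') (n : ℕ) (c : Ch R Y n) :
    mp R (Prod.map g id) (n + 1) (pr R z₀ z₁ n c) = pr R z₀ z₁ n (mp R g n c) := by
  have key : ∀ n, (mp R (Prod.map g (id : Z → Z)) (n + 1)) ∘ₗ (pr R z₀ z₁ n) =
      (pr R z₀ z₁ n) ∘ₗ (mp R g n) := by
    intro n
    induction n with
    | zero =>
      apply lin_ext
      intro v
      rw [LinearMap.comp_apply, LinearMap.comp_apply, mp_single, pr_zero_single, pr_zero_single,
        cone_mp, map_sub, mp_single, mp_single]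
      rfl
    | succ n ih =>
      apply lin_ext
      intro v
      have h1 := LinearMap.congr_fun ih (bd R n (Finsupp.single v 1))
      rw [LinearMap.comp_apply, LinearMap.comp_apply] at h1
      have h2 : mp R (Prod.map g (id : Z → Z)) (n + 1) (Finsupp.single (fun i => (v i, z₁)) 1 -
          Finsupp.single (fun i => (v i, z₀)) 1 -
            pr R z₀ z₁ n (bd R n (Finsupp.single v 1))) =
          Finsupp.single (fun i => (g (v i), z₁)) 1 - Finsupp.single (fun i => (g (v i), z₀)) 1 -
            pr R z₀ z₁ n (bd R n (Finsupp.single (g ∘ v) 1)) := by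
        rw [map_sub, map_sub, mp_single, mp_single, h1, ← bd_mp, mp_single]
        rfl
      rw [LinearMap.comp_apply, LinearMap.comp_apply, mp_single, pr_succ_single, pr_succ_single,
        cone_mp, h2]
      rfl
  exact LinearMap.congr_fun (key n) c

end

section

variable (R : Type) [CommRing R] {X X' X'' : Type} [TopologicalSpace X] [TopologicalSpace X']
  [TopologicalSpace X'']

/-- push an ordered chain of `Δⁿ × Δ¹` forward to `X × Δ¹` -/
noncomputable def push2 {n : ℕ} (σ : C(Sx n, X)) (m : ℕ) :
    Ch R (Sx n × Sx 1) m →ₗ[R] SC R (X × Sx 1) m :=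
  Finsupp.lmapDomain R R
    (fun w => (σ.comp (aff (fun i => (w i).1))).prodMk (aff (fun i => (w i).2)))

theorem push2_single {n : ℕ} (σ : C(Sx n, X)) {m : ℕ} (w : Fin (m + 1) → Sx n × Sx 1) (r : R) :
    push2 R σ m (Finsupp.single w r) =
      Finsupp.single ((σ.comp (aff (fun i => (w i).1))).prodMk (aff (fun i => (w i).2))) r := by
  rw [push2, Finsupp.lmapDomain_apply, Finsupp.mapDomain_single]

theorem sbd_push2 {n : ℕ} (σ : C(Sx n, X)) (m : ℕ) (c : Ch R (Sx n × Sx 1) (m + 1)) :
    sbd R m (push2 R σ (m + 1) c) = push2 R σ m (bd R m c) := by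
  have h : (sbd R m) ∘ₗ (push2 R σ (m + 1)) = (push2 R σ m) ∘ₗ (bd R m) := by
    apply lin_ext
    intro w
    rw [LinearMap.comp_apply, LinearMap.comp_apply, push2_single, sbd_single, bd_single, sbdv,
      bdv, map_sum]
    apply Finset.sum_congr rfl
    intro i _
    rw [map_smul, push2_single]
    congr 2
    have e1 := aff_smap (fun i => (w i).1) i.succAbove
    have e2 := aff_smap (fun i => (w i).2) i.succAbove
    ext1 t
    refine Prod.ext ?_ ?_
    · exact congrArg σ (ContinuousMap.congr_fun e1 t)
    · exact ContinuousMap.congr_fun e2 t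
  exact LinearMap.congr_fun h c

theorem push2_comp_aff {n k : ℕ} (σ : C(Sx n, X)) (u : Fin (k + 1) → Sx n) (m : ℕ)
    (c : Ch R (Sx k × Sx 1) m) :
    push2 R (σ.comp (aff u)) m c = push2 R σ m (mp R (Prod.map (aff u) id) m c) := by
  have h : push2 R (σ.comp (aff u)) m = (push2 R σ m) ∘ₗ (mp R (Prod.map (aff u) id) m) := by
    apply lin_ext
    intro w
    rw [LinearMap.comp_apply, mp_single, push2_single, push2_single]
    congr 2
    rw [ContinuousMap.comp_assoc, aff_comp]
    rfl
  exact LinearMap.congr_fun h c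

/-- the inclusion `x ↦ (x, z)` -/
def at1 (z : Sx 1) : C(X, X × Sx 1) := ⟨fun x => (x, z), by fun_prop⟩

theorem push2_mp {n : ℕ} (σ : C(Sx n, X)) (z : Sx 1) (m : ℕ) (c : Ch R (Sx n) m) :
    push2 R σ m (mp R (fun y => (y, z)) m c) = smp R (at1 z) m (push R σ m c) := by
  have h : (push2 R σ m) ∘ₗ (mp R (fun y => (y, z)) m) = (smp R (at1 z) m) ∘ₗ (push R σ m) := by
    apply lin_ext
    intro w
    rw [LinearMap.comp_apply, LinearMap.comp_apply, mp_single, push2_single, push_single,
      smp_single]
    congr 1
    ext1 t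
    refine Prod.ext rfl ?_
    show aff (fun _ => z) t = z
    apply stdSimplex.ext
    funext k
    rw [aff_apply, ← Finset.sum_mul, stdSimplex.sum_eq_one, one_mul]
  exact LinearMap.congr_fun h c

/-- the prism operator on singular chains -/
noncomputable def PP (z₀ z₁ : Sx 1) (n : ℕ) : SC R X n →ₗ[R] SC R (X × Sx 1) (n + 1) :=
  Finsupp.linearCombination R
    (fun σ => push2 R σ (n + 1) (pr R z₀ z₁ n (Finsupp.single (vx n) 1)))

theorem PP_single (z₀ z₁ : Sx 1) {n : ℕ} (σ : C(Sx n, X)) : PP R z₀ z₁ n (Finsupp.single σ 1) =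
    push2 R σ (n + 1) (pr R z₀ z₁ n (Finsupp.single (vx n) 1)) := by
  rw [PP, Finsupp.linearCombination_single, one_smul]

theorem PP_push (z₀ z₁ : Sx 1) {n : ℕ} (σ : C(Sx n, X)) (m : ℕ) (c : Ch R (Sx n) m) :
    PP R z₀ z₁ m (push R σ m c) = push2 R σ (m + 1) (pr R z₀ z₁ m c) := by
  have h : (PP R z₀ z₁ m) ∘ₗ (push R σ m) = (push2 R σ (m + 1)) ∘ₗ (pr R z₀ z₁ m) := by
    apply lin_ext
    intro v
    rw [LinearMap.comp_apply, LinearMap.comp_apply, push_single, PP_single, push2_comp_aff,
      pr_mp, mp_single, aff_comp_vx]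
  exact LinearMap.congr_fun h c

theorem sbd_PP (z₀ z₁ : Sx 1) (n : ℕ) (c : SC R X (n + 1)) :
    sbd R (n + 1) (PP R z₀ z₁ (n + 1) c) + PP R z₀ z₁ n (sbd R n c) =
      smp R (at1 z₁) (n + 1) c - smp R (at1 z₀) (n + 1) c := by
  have h : (sbd R (n + 1)) ∘ₗ (PP R (X := X) z₀ z₁ (n + 1)) + (PP R z₀ z₁ n) ∘ₗ (sbd R n) =
      smp R (at1 z₁) (n + 1) - smp R (at1 z₀) (n + 1) := by
    apply slin_ext
    intro σ
    have h1 := congrArg (push2 R σ (n + 1)) (bd_pr R z₀ z₁ n (Finsupp.single (vx (n + 1)) 1))
    rw [map_add, map_sub, ← sbd_push2, ← PP_push, ← PP_push, ← sbd_push, push2_mp, push2_mp,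
      push_vx] at h1
    exact h1
  exact LinearMap.congr_fun h c

theorem sbd_PP_zero (z₀ z₁ : Sx 1) (c : SC R X 0) :
    sbd R 0 (PP R z₀ z₁ 0 c) = smp R (at1 z₁) 0 c - smp R (at1 z₀) 0 c := by
  have h : (sbd R 0) ∘ₗ (PP R (X := X) z₀ z₁ 0) = smp R (at1 z₁) 0 - smp R (at1 z₀) 0 := by
    apply slin_ext
    intro σ
    have h1 := congrArg (push2 R σ 0) (bd_pr_zero R z₀ z₁ (Finsupp.single (vx 0) 1))
    rw [map_sub, ← sbd_push2, ← PP_push, push2_mp, push2_mp, push_vx] at h1
    exact h1
  exact LinearMap.congr_fun h c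

variable {R}

/-- homotopic maps agree on homology -/
theorem isBdry_of_homotopic {f g : C(X, X')} (h : f.Homotopic g) {n : ℕ} {z : SC R X n}
    (hz : IsCyc R n z) : IsBdry R n (smp R g n z - smp R f n z) := by
  obtain ⟨F⟩ := h
  let G : C(X × Sx 1, X') :=
    ⟨fun p => F (stdSimplexHomeomorphUnitInterval p.2, p.1), by fun_prop⟩
  let w₀ : Sx 1 := stdSimplexHomeomorphUnitInterval.symm 0
  let w₁ : Sx 1 := stdSimplexHomeomorphUnitInterval.symm 1
  have e0 : G.comp (at1 w₀) = f := by
    ext1 x
    show F (stdSimplexHomeomorphUnitInterval (stdSimplexHomeomorphUnitInterval.symm 0), x) = f x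
    rw [Homeomorph.apply_symm_apply]
    exact F.apply_zero x
  have e1 : G.comp (at1 w₁) = g := by
    ext1 x
    show F (stdSimplexHomeomorphUnitInterval (stdSimplexHomeomorphUnitInterval.symm 1), x) = g x
    rw [Homeomorph.apply_symm_apply]
    exact F.apply_one x
  have key : IsBdry R n (smp R (at1 w₁) n z - smp R (at1 w₀) n z) := by
    cases n with
    | zero => exact ⟨_, sbd_PP_zero R w₀ w₁ z⟩
    | succ n =>
      have hz' : sbd R n z = 0 := hz
      have h1 := sbd_PP R w₀ w₁ n z
      rw [hz', map_zero, add_zero] at h1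
      exact ⟨_, h1⟩
  have h2 := key.smp G
  rw [map_sub, ← smp_comp, ← smp_comp, e0, e1] at h2
  exact h2

theorem smp_pow (f : C(X, X)) (n k : ℕ) (c : SC R X n) :
    ((smp R f n : Module.End R (SC R X n)) ^ (k + 1)) c =
      smp R f n (((smp R f n : Module.End R (SC R X n)) ^ k) c) := by
  rw [pow_succ']
  rfl

theorem IsCyc.smp_pow {n : ℕ} {z : SC R X n} (hz : IsCyc R n z) (f : C(X, X)) (k : ℕ) :
    IsCyc R n (((SingHom.smp R f n : Module.End R (SC R X n)) ^ k) z) := by
  induction k with
  | zero => exact hz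
  | succ k ih =>
    rw [SingHom.smp_pow]
    exact ih.smp f

theorem IsBdry.neg {n : ℕ} {c : SC R X n} (h : IsBdry R n c) : IsBdry R n (-c) := by
  obtain ⟨y, rfl⟩ := h
  exact ⟨-y, map_neg _ _⟩

theorem IsBdry.smul {n : ℕ} {c : SC R X n} (h : IsBdry R n c) (r : R) : IsBdry R n (r • c) := by
  obtain ⟨y, rfl⟩ := h
  exact ⟨r • y, map_smul _ _ _⟩

theorem isBdry_pact_sub {n : ℕ} {z : SC R X n} {f g : C(X, X)} (hz : IsCyc R n z)
    (h : ∀ z : SC R X n, IsCyc R n z → IsBdry R n (smp R g n z - smp R f n z)) (p : R[X]) :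
    IsBdry R n (pact R g p n z - pact R f p n z) := by
  induction p using Polynomial.induction_on' with
  | add p q hp hq =>
    have e : pact R g (p + q) n z - pact R f (p + q) n z =
        (pact R g p n z - pact R f p n z) + (pact R g q n z - pact R f q n z) := by
      simp only [pact, map_add, LinearMap.add_apply]
      abel
    rw [e]
    exact hp.add hq
  | monomial k a =>
    have key : ∀ k : ℕ, IsBdry R n (((smp R g n : Module.End R (SC R X n)) ^ k) z -
        ((smp R f n : Module.End R (SC R X n)) ^ k) z) := by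
      intro k
      induction k with
      | zero =>
        rw [pow_zero, pow_zero, sub_self]
        exact IsBdry.zero
      | succ k ih =>
        rw [smp_pow, smp_pow]
        have h1 := h _ (hz.smp_pow g k)
        have h2 := ih.smp f
        rw [map_sub] at h2
        have h3 := h1.add h2
        rw [sub_add_sub_cancel] at h3
        exact h3
    have e : pact R g (monomial k a) n z - pact R f (monomial k a) n z =
        a • (((smp R g n : Module.End R (SC R X n)) ^ k) z -
        ((smp R f n : Module.End R (SC R X n)) ^ k) z) := by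
      simp only [pact, aeval_monomial, Module.End.mul_apply, Module.algebraMap_end_apply]
      rw [smul_sub]
    rw [e]
    exact (key k).smul a

/-- `Kills` only depends on the homotopy class of the map -/
theorem Kills.of_homotopic {f g : C(X, X)} (h : f.Homotopic g) {n : ℕ} {p : R[X]}
    (K : Kills R f n p) : Kills R g n p := by
  intro z hz
  have h1 := isBdry_pact_sub hz (fun z hz => isBdry_of_homotopic h hz) p
  have h2 := h1.add (K z hz)
  rw [sub_add_cancel] at h2
  exact h2

theorem pact_sub_one (f : C(X, X)) (n : ℕ) (z : SC R X n) :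
    pact R f (Polynomial.X - 1) n z = smp R f n z - z := by
  rw [pact, map_sub, aeval_X, map_one]
  rfl

/-- a map homotopic to the identity acts as the identity on homology -/
theorem Kills.of_homotopic_id {f : C(X, X)} (h : (ContinuousMap.id X).Homotopic f) (n : ℕ) :
    Kills R f n (Polynomial.X - 1) := by
  intro z hz
  rw [pact_sub_one]
  have h1 := isBdry_of_homotopic h hz
  rw [smp_id] at h1
  exact h1

/-- the polynomial `p (X ^ k)` kills `f` if `p` kills the `k`-th iterate -/
theorem Kills.of_iterate {f g : C(X, X)} {k : ℕ} (hg : ∀ x, g x = f^[k] x) {n : ℕ} {p : R[X]}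
    (K : Kills R g n p) : Kills R f n (p.comp (Polynomial.X ^ k)) := by
  intro z hz
  have h0 : (smp R g n : Module.End R (SC R X n)) = (smp R f n : Module.End R (SC R X n)) ^ k := by
    have h1 : ∀ (k : ℕ) (g : C(X, X)), (∀ x, g x = f^[k] x) →
        (smp R g n : Module.End R (SC R X n)) = (smp R f n : Module.End R (SC R X n)) ^ k := by
      intro k
      induction k with
      | zero =>
        intro g hg
        have : g = ContinuousMap.id X := by
          ext1 x
          exact hg x
        rw [this, pow_zero]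
        apply LinearMap.ext
        intro c
        exact smp_id R n c
      | succ k ih =>
        intro g hg
        let g' : C(X, X) := ⟨f^[k], f.continuous.iterate k⟩
        have e : g = g'.comp f := by
          ext1 x
          rw [hg x]
          exact Function.iterate_succ_apply f k x
        rw [e, pow_succ, ← ih g' (fun _ => rfl)]
        apply LinearMap.ext
        intro c
        exact smp_comp R g' f n c
    exact h1 k g hg
  have e : pact R f (p.comp (Polynomial.X ^ k)) n = pact R g p n := by
    rw [pact, pact, aeval_comp, map_pow, aeval_X, h0]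
  rw [e]
  exact K z hz

/-- transfer of `Kills` along a homotopy retraction -/
theorem Kills.transfer {f : C(X, X)} {f' : C(X', X')} (g : C(X, X')) (h : C(X', X))
    (hgh : (ContinuousMap.id X).Homotopic (h.comp g))
    (hc : (g.comp f).Homotopic (f'.comp g)) {n : ℕ} {p : R[X]}
    (K : Kills R f' n p) : Kills R f n p := by
  intro z hz
  -- compare `g_* p(f) z` with `p(f') g_* z`
  have key : ∀ p : R[X], IsBdry R n (pact R f' p n (smp R g n z) - smp R g n (pact R f p n z)) := by
    intro p
    induction p using Polynomial.induction_on' with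
    | add p q hp hq =>
      have e : pact R f' (p + q) n (smp R g n z) - smp R g n (pact R f (p + q) n z) =
          (pact R f' p n (smp R g n z) - smp R g n (pact R f p n z)) +
          (pact R f' q n (smp R g n z) - smp R g n (pact R f q n z)) := by
        simp only [pact, map_add, LinearMap.add_apply]
        abel
      rw [e]
      exact hp.add hq
    | monomial k a =>
      have key : ∀ k : ℕ, IsBdry R n
          (((smp R f' n : Module.End R (SC R X' n)) ^ k) (smp R g n z) -
            smp R g n (((smp R f n : Module.End R (SC R X n)) ^ k) z)) := by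
        intro k
        induction k with
        | zero =>
          rw [pow_zero, pow_zero, Module.End.one_apply, Module.End.one_apply, sub_self]
          exact IsBdry.zero
        | succ k ih =>
          rw [smp_pow, smp_pow]
          have h1 := ih.smp f'
          have h2 := isBdry_of_homotopic hc (hz.smp_pow f k)
          rw [map_sub] at h1
          rw [smp_comp, smp_comp] at h2
          have h3 := h1.add h2
          rw [sub_add_sub_cancel] at h3
          exact h3
      have e : pact R f' (monomial k a) n (smp R g n z) - smp R g n (pact R f (monomial k a) n z) =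
          a • (((smp R f' n : Module.End R (SC R X' n)) ^ k) (smp R g n z) -
            smp R g n (((smp R f n : Module.End R (SC R X n)) ^ k) z)) := by
        simp only [pact, aeval_monomial, Module.End.mul_apply, Module.algebraMap_end_apply,
          map_smul]
        rw [smul_sub]
      rw [e]
      exact (key k).smul a
  have h1 := (key p).neg.add (K _ (hz.smp g))
  rw [neg_sub, sub_add_cancel] at h1
  have h2 := h1.smp h
  have h3 := (isBdry_of_homotopic hgh (hz.pact f p)).neg.add h2
  rw [smp_id, smp_comp, neg_sub, sub_add_cancel] at h3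
  exact h3

end

end Pool.Agent.Lib.SingHom
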