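import Pool.Agent.Lib.SingHom.SC

/-!
# Small chains and the Mayer–Vietoris argument for polynomials in an endomorphism
-/

set_option linter.unusedSectionVars false

namespace Pool.Agent.Lib.SingHom

open Polynomial

section

variable (R : Type) [CommRing R] {X X' X'' : Type} [TopologicalSpace X] [TopologicalSpace X']
  [TopologicalSpace X'']

/-- cycles -/
def IsCyc : (n : ℕ) → SC R X n → Prop
  | 0, _ => True
  | n + 1, c => sbd R n c = 0

/-- boundaries -/
def IsBdry (n : ℕ) (c : SC R X n) : Prop := ∃ y : SC R X (n + 1), sbd R n y = c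

variable {R}

theorem IsBdry.add {n : ℕ} {c c' : SC R X n} (h : IsBdry R n c) (h' : IsBdry R n c') :
    IsBdry R n (c + c') := by
  obtain ⟨y, rfl⟩ := h
  obtain ⟨y', rfl⟩ := h'
  exact ⟨y + y', map_add _ _ _⟩

theorem IsBdry.zero {n : ℕ} : IsBdry R n (0 : SC R X n) := ⟨0, map_zero _⟩

theorem IsBdry.smp {n : ℕ} {c : SC R X n} (h : IsBdry R n c) (f : C(X, X')) :
    IsBdry R n (smp R f n c) := by
  obtain ⟨y, rfl⟩ := h
  exact ⟨SingHom.smp R f (n + 1) y, sbd_smp R f n y⟩

theorem IsCyc.smp {n : ℕ} {c : SC R X n} (h : IsCyc R n c) (f : C(X, X')) :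
    IsCyc R n (smp R f n c) := by
  cases n with
  | zero => trivial
  | succ n =>
    have h' : sbd R n c = 0 := h
    show sbd R n (SingHom.smp R f (n + 1) c) = 0
    rw [sbd_smp, h', map_zero]

theorem isCyc_SS {n : ℕ} {c : SC R X n} (h : IsCyc R n c) : IsCyc R n (SS R n c) := by
  cases n with
  | zero => trivial
  | succ n =>
    have h' : sbd R n c = 0 := h
    show sbd R n (SS R (n + 1) c) = 0
    rw [sbd_SS, h', map_zero]

theorem isBdry_sub_SS {n : ℕ} {c : SC R X n} (h : IsCyc R n c) :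
    IsBdry R n (c - SS R n c) := by
  cases n with
  | zero => exact ⟨_, sbd_HH_zero R c⟩
  | succ n =>
    have h' : sbd R n c = 0 := h
    refine ⟨HH R (n + 1) c, ?_⟩
    have h1 := sbd_HH R n c
    rw [h', map_zero, add_zero] at h1
    exact h1

theorem SS_pow_succ (n k : ℕ) (c : SC R X n) :
    ((SS R n) ^ (k + 1)) c = SS R n (((SS R n) ^ k) c) := by
  rw [pow_succ']
  rfl

theorem isCyc_SS_pow {n : ℕ} {c : SC R X n} (h : IsCyc R n c) (k : ℕ) :
    IsCyc R n (((SS R n) ^ k) c) := by
  induction k with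
  | zero => exact h
  | succ k ih =>
    rw [SS_pow_succ]
    exact isCyc_SS ih

theorem isBdry_sub_SS_pow {n : ℕ} {c : SC R X n} (h : IsCyc R n c) (k : ℕ) :
    IsBdry R n (c - ((SS R n) ^ k) c) := by
  induction k with
  | zero =>
    rw [pow_zero]
    show IsBdry R n (c - c)
    rw [sub_self]
    exact IsBdry.zero
  | succ k ih =>
    have h1 := ih.add (isBdry_sub_SS (isCyc_SS_pow h k))
    rw [← SS_pow_succ, sub_add_sub_cancel] at h1
    exact h1

/-! ### Small chains -/

variable (R)

/-- the chains all of whose simplices have image in `U` -/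
noncomputable def inU (U : Set X) (n : ℕ) : Submodule R (SC R X n) :=
  supp R (fun σ : C(Sx n, X) => ∀ t, σ t ∈ U)

variable {R}

theorem SS_mem_inU {U : Set X} {n : ℕ} {c : SC R X n} (h : c ∈ inU R U n) :
    SS R n c ∈ inU R U n := by
  refine supp_map R (SS R n) ?_ h
  intro σ hσ
  rw [SS_single]
  have h1 : sdx R n n (Finsupp.single (vx n) 1) ∈ supp R (fun _ : Fin (n + 1) → Sx n => True) :=
    supp_mono R (fun _ _ => trivial)
      (sdx_single_mem R n (vx n) zero_le_one (fun i j => dist_le_one _ _))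
  refine supp_map R (push R σ n) ?_ h1
  intro w _
  rw [push_single]
  exact single_mem_supp R (P := fun σ : C(Sx n, X) => ∀ t, σ t ∈ U) (v := σ.comp (aff w))
    (fun t => hσ (aff w t)) 1

theorem SS_pow_push {n : ℕ} (σ : C(Sx n, X)) (m k : ℕ) (c : Ch R (Sx n) m) :
    ((SS R m) ^ k) (push R σ m c) = push R σ m (((sdx R n m) ^ k) c) := by
  induction k with
  | zero => rfl
  | succ k ih =>
    rw [SS_pow_succ, ih, SS_push, pow_succ']
    rfl

theorem SS_pow_mem_sup {U V : Set X} {n : ℕ} {c : SC R X n} (h : c ∈ inU R U n ⊔ inU R V n)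
    (k : ℕ) : ((SS R n) ^ k) c ∈ inU R U n ⊔ inU R V n := by
  induction k with
  | zero => exact h
  | succ k ih =>
    rw [SS_pow_succ]
    obtain ⟨a, ha, b, hb, hab⟩ := Submodule.mem_sup.1 ih
    rw [← hab, map_add]
    exact Submodule.add_mem_sup (SS_mem_inU ha) (SS_mem_inU hb)

theorem exists_small_single {U V : Set X} (hU : IsOpen U) (hV : IsOpen V)
    (hUV : U ∪ V = Set.univ) {n : ℕ} (σ : C(Sx n, X)) :
    ∃ k : ℕ, ((SS R n) ^ k) (Finsupp.single σ 1) ∈ inU R U n ⊔ inU R V n := by
  have hcov : (Set.univ : Set (Sx n)) ⊆ ⋃ b : Bool, (fun b : Bool => σ ⁻¹' (if b then U else V)) b := by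
    intro t _
    have ht : σ t ∈ U ∪ V := by rw [hUV]; trivial
    rcases ht with ht | ht
    · exact Set.mem_iUnion.2 ⟨true, ht⟩
    · exact Set.mem_iUnion.2 ⟨false, ht⟩
  obtain ⟨δ, hδ, hL⟩ := lebesgue_number_lemma_of_metric (isCompact_univ (X := Sx n))
    (c := fun b : Bool => σ ⁻¹' (if b then U else V)) (by
      intro b
      cases b
      · exact hV.preimage σ.continuous
      · exact hU.preimage σ.continuous) hcov
  obtain ⟨k, hk⟩ := exists_pow_lt n hδ
  refine ⟨k, ?_⟩
  rw [← push_vx R σ, SS_pow_push]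
  refine supp_map R (push R σ n) ?_
    (sdx_pow_mem R n k (vx n) zero_le_one (fun i j => dist_le_one _ _))
  intro w hw
  rw [mul_one] at hw
  rw [push_single]
  obtain ⟨b, hb⟩ := hL (w 0) (Set.mem_univ _)
  have hin : ∀ t, aff w t ∈ σ ⁻¹' (if b then U else V) := by
    intro t
    apply hb
    rw [Metric.mem_ball]
    have h0 : aff w (stdSimplex.vertex 0) = w 0 := aff_vertex w 0
    rw [← h0]
    exact (hw.dist_aff (by positivity) t _).trans_lt hk
  cases b
  · exact Submodule.mem_sup_right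
      (single_mem_supp R (P := fun σ : C(Sx n, X) => ∀ t, σ t ∈ V) (fun t => hin t) 1)
  · exact Submodule.mem_sup_left
      (single_mem_supp R (P := fun σ : C(Sx n, X) => ∀ t, σ t ∈ U) (fun t => hin t) 1)

theorem exists_small {U V : Set X} (hU : IsOpen U) (hV : IsOpen V)
    (hUV : U ∪ V = Set.univ) {n : ℕ} (c : SC R X n) :
    ∃ k : ℕ, ((SS R n) ^ k) c ∈ inU R U n ⊔ inU R V n := by
  induction c using Finsupp.induction_linear with
  | zero => exact ⟨0, Submodule.zero_mem _⟩
  | add c c' h h' =>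
    obtain ⟨k, hk⟩ := h
    obtain ⟨k', hk'⟩ := h'
    refine ⟨k + k', ?_⟩
    have e1 : ((SS R n) ^ (k + k')) c = ((SS R n) ^ k') (((SS R n) ^ k) c) := by
      rw [add_comm k k', pow_add]
      rfl
    have e2 : ((SS R n) ^ (k + k')) c' = ((SS R n) ^ k) (((SS R n) ^ k') c') := by
      rw [pow_add]
      rfl
    rw [map_add, e1, e2]
    exact Submodule.add_mem _ (SS_pow_mem_sup hk k') (SS_pow_mem_sup hk' k)
  | single σ r =>
    obtain ⟨k, hk⟩ := exists_small_single (R := R) hU hV hUV σ
    refine ⟨k, ?_⟩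
    have e : Finsupp.single σ r = r • Finsupp.single σ (1 : R) := by
      rw [Finsupp.smul_single, smul_eq_mul, mul_one]
    rw [e, map_smul]
    exact Submodule.smul_mem _ r hk

/-! ### Chains in subspaces -/

/-- the inclusion of a subspace -/
def incl (U : Set X) : C(U, X) := ⟨Subtype.val, continuous_subtype_val⟩

theorem exists_lift {U : Set X} {n : ℕ} {c : SC R X n} (h : c ∈ inU R U n) :
    ∃ c' : SC R U n, smp R (incl U) n c' = c := by
  have h1 : (LinearMap.id : SC R X n →ₗ[R] SC R X n) c ∈ LinearMap.range (smp R (incl U) n) := by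
    refine supp_map R (LinearMap.id : SC R X n →ₗ[R] SC R X n) ?_ h
    intro σ hσ
    refine ⟨Finsupp.single ⟨fun t => ⟨σ t, hσ t⟩, σ.continuous.subtype_mk _⟩ 1, ?_⟩
    rw [smp_single]
    rfl
  exact h1

theorem smp_mem_inU {U : Set X} {n : ℕ} (c : SC R U n) : smp R (incl U) n c ∈ inU R U n := by
  have h1 : c ∈ supp R (fun _ : C(Sx n, U) => True) := by
    have : supp R (fun _ : C(Sx n, U) => True) = ⊤ := by
      rw [supp]
      exact Finsupp.supported_univ
    rw [this]
    trivial
  refine supp_map R (smp R (incl U) n) ?_ h1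
  intro σ _
  rw [smp_single]
  exact single_mem_supp R (P := fun σ : C(Sx n, X) => ∀ t, σ t ∈ U) (fun t => (σ t).2) 1

theorem smp_injective {f : C(X, X')} (hf : Function.Injective f) (n : ℕ) :
    Function.Injective (smp R f n) := by
  have h : Function.Injective (fun σ : C(Sx n, X) => f.comp σ) := by
    intro σ τ hστ
    ext1 t
    exact hf (ContinuousMap.congr_fun hστ t)
  intro c c' hcc
  have h1 : Finsupp.mapDomain (fun σ : C(Sx n, X) => f.comp σ) c =
      Finsupp.mapDomain (fun σ : C(Sx n, X) => f.comp σ) c' := hcc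
  exact Finsupp.mapDomain_injective h h1

theorem mem_inter {U V : Set X} {n : ℕ} {c : SC R X n} (h : c ∈ inU R U n)
    (h' : c ∈ inU R V n) : c ∈ inU R (U ∩ V) n := by
  have h1 : c ∈ Finsupp.supported R R {σ : C(Sx n, X) | ∀ t, σ t ∈ U} := h
  have h2 : c ∈ Finsupp.supported R R {σ : C(Sx n, X) | ∀ t, σ t ∈ V} := h'
  have h3 : c ∈ Finsupp.supported R R {σ : C(Sx n, X) | ∀ t, σ t ∈ U ∩ V} := by
    rw [Finsupp.mem_supported] at h1 h2 ⊢
    intro σ hσ
    exact fun t => ⟨h1 hσ t, h2 hσ t⟩
  exact h3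

/-! ### Polynomials in an endomorphism -/

theorem aeval_comm {M N : Type*} [AddCommGroup M] [Module R M] [AddCommGroup N] [Module R N]
    (A : Module.End R M) (B : Module.End R N) (g : M →ₗ[R] N)
    (h : ∀ x, g (A x) = B (g x)) (p : R[X]) (x : M) :
    g (aeval A p x) = aeval B p (g x) := by
  induction p using Polynomial.induction_on' generalizing x with
  | add p q hp hq =>
    rw [map_add, map_add, LinearMap.add_apply, LinearMap.add_apply, map_add, hp, hq]
  | monomial k a =>
    have key : ∀ (k : ℕ) (x : M), g ((A ^ k) x) = (B ^ k) (g x) := by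
      intro k
      induction k with
      | zero => intro x; rfl
      | succ k ih =>
        intro x
        rw [pow_succ, pow_succ]
        show g ((A ^ k) (A x)) = (B ^ k) (B (g x))
        rw [ih, h]
    rw [aeval_monomial, aeval_monomial, Module.End.mul_apply, Module.End.mul_apply,
      Module.algebraMap_end_apply, Module.algebraMap_end_apply, map_smul, key]

variable (R)

/-- `p` applied to the chain map induced by `f` -/
noncomputable def pact (f : C(X, X)) (p : R[X]) (n : ℕ) : SC R X n →ₗ[R] SC R X n :=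
  aeval (smp R f n : Module.End R (SC R X n)) p

/-- `p` of the map induced by `f` is zero on the homology in degree `n` -/
def Kills (f : C(X, X)) (n : ℕ) (p : R[X]) : Prop :=
  ∀ z : SC R X n, IsCyc R n z → IsBdry R n (pact R f p n z)

variable {R}

theorem sbd_pact (f : C(X, X)) (p : R[X]) (n : ℕ) (c : SC R X (n + 1)) :
    sbd R n (pact R f p (n + 1) c) = pact R f p n (sbd R n c) :=
  aeval_comm _ _ (sbd R n) (fun c => sbd_smp R f n c) p c

theorem smp_pact (f : C(X, X)) (f' : C(X', X')) (g : C(X, X')) (h : ∀ x, g (f x) = f' (g x))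
    (p : R[X]) (n : ℕ) (c : SC R X n) :
    smp R g n (pact R f p n c) = pact R f' p n (smp R g n c) := by
  refine aeval_comm _ _ (smp R g n) (fun c => ?_) p c
  rw [← smp_comp, ← smp_comp]
  congr 2
  ext1 x
  exact h x

theorem pact_mul (f : C(X, X)) (p q : R[X]) (n : ℕ) (c : SC R X n) :
    pact R f (p * q) n c = pact R f p n (pact R f q n c) := by
  rw [pact, map_mul]
  rfl

theorem IsBdry.pact {n : ℕ} {c : SC R X n} (h : IsBdry R n c) (f : C(X, X)) (p : R[X]) :
    IsBdry R n (pact R f p n c) := by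
  obtain ⟨y, rfl⟩ := h
  exact ⟨SingHom.pact R f p (n + 1) y, sbd_pact f p n y⟩

theorem IsCyc.pact {n : ℕ} {c : SC R X n} (h : IsCyc R n c) (f : C(X, X)) (p : R[X]) :
    IsCyc R n (pact R f p n c) := by
  cases n with
  | zero => trivial
  | succ n =>
    have h' : sbd R n c = 0 := h
    show sbd R n (SingHom.pact R f p (n + 1) c) = 0
    rw [sbd_pact, h', map_zero]

theorem Kills.mul_left {f : C(X, X)} {n : ℕ} {p : R[X]} (h : Kills R f n p) (q : R[X]) :
    Kills R f n (q * p) := by
  intro z hz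
  rw [pact_mul]
  exact (h z hz).pact f q

theorem Kills.mul_right {f : C(X, X)} {n : ℕ} {p : R[X]} (h : Kills R f n p) (q : R[X]) :
    Kills R f n (p * q) := by
  rw [mul_comm]
  exact h.mul_left q

/-- **Mayer–Vietoris** in degree zero. -/
theorem kills_mv_zero {U V : Set X} (hU : IsOpen U) (hV : IsOpen V) (hUV : U ∪ V = Set.univ)
    (f : C(X, X)) (fU : C(U, U)) (fV : C(V, V)) (hfU : ∀ x, (fU x : X) = f x)
    (hfV : ∀ x, (fV x : X) = f x) {p : R[X]} (KU : Kills R fU 0 p) (KV : Kills R fV 0 p) :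
    Kills R f 0 p := by
  intro z hz
  obtain ⟨k, hk⟩ := exists_small (R := R) hU hV hUV z
  obtain ⟨a, ha, b, hb, hab⟩ := Submodule.mem_sup.1 hk
  obtain ⟨a', rfl⟩ := exists_lift ha
  obtain ⟨b', rfl⟩ := exists_lift hb
  have h1 := (isBdry_sub_SS_pow hz k).pact f p
  rw [map_sub, ← hab, map_add, ← smp_pact fU f (incl U) hfU, ← smp_pact fV f (incl V) hfV] at h1
  have h2 := h1.add (((KU a' trivial).smp (incl U)).add ((KV b' trivial).smp (incl V)))
  rw [sub_add_cancel] at h2
  exact h2

/-- **Mayer–Vietoris** for polynomials in an endomorphism. -/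
theorem kills_mv {U V : Set X} (hU : IsOpen U) (hV : IsOpen V) (hUV : U ∪ V = Set.univ)
    (f : C(X, X)) (fU : C(U, U)) (fV : C(V, V)) (fW : C(↥(U ∩ V), ↥(U ∩ V)))
    (hfU : ∀ x, (fU x : X) = f x) (hfV : ∀ x, (fV x : X) = f x) (hfW : ∀ x, (fW x : X) = f x)
    (n : ℕ) {p q : R[X]} (KU : Kills R fU (n + 1) p) (KV : Kills R fV (n + 1) p)
    (KW : Kills R fW n q) : Kills R f (n + 1) (p * q) := by
  intro z hz
  obtain ⟨k, hk⟩ := exists_small (R := R) hU hV hUV z
  have hck : sbd R n (((SS R (n + 1)) ^ k) z) = 0 := isCyc_SS_pow hz k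
  obtain ⟨a, ha, b, hb, hab⟩ := Submodule.mem_sup.1 hk
  obtain ⟨a', rfl⟩ := exists_lift ha
  obtain ⟨b', rfl⟩ := exists_lift hb
  -- inclusions
  let jU : C(↥(U ∩ V), U) := ⟨fun x => ⟨x.1, x.2.1⟩, continuous_subtype_val.subtype_mk _⟩
  let jV : C(↥(U ∩ V), V) := ⟨fun x => ⟨x.1, x.2.2⟩, continuous_subtype_val.subtype_mk _⟩
  have eU : (incl U).comp jU = incl (U ∩ V) := rfl
  have eV : (incl V).comp jV = incl (U ∩ V) := rfl
  have iU : Function.Injective (incl U) := Subtype.val_injective
  have iV : Function.Injective (incl V) := Subtype.val_injective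
  have iW : Function.Injective (incl (U ∩ V)) := Subtype.val_injective
  -- the connecting chain
  have hsum : smp R (incl U) n (sbd R n a') + smp R (incl V) n (sbd R n b') = 0 := by
    rw [← sbd_smp, ← sbd_smp, ← map_add, hab, hck]
  have hw1 : smp R (incl U) n (sbd R n a') ∈ inU R U n := smp_mem_inU _
  have hw2 : smp R (incl U) n (sbd R n a') ∈ inU R V n := by
    rw [eq_neg_of_add_eq_zero_left hsum]
    exact Submodule.neg_mem _ (smp_mem_inU _)
  obtain ⟨w, hw⟩ := exists_lift (mem_inter hw1 hw2)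
  have hwU : smp R jU n w = sbd R n a' := by
    apply smp_injective iU
    rw [← smp_comp, eU, hw]
  have hwV : smp R jV n w = - sbd R n b' := by
    apply smp_injective iV
    rw [← smp_comp, eV, hw, map_neg]
    exact eq_neg_of_add_eq_zero_left hsum
  have hwc : IsCyc R n w := by
    cases n with
    | zero => trivial
    | succ n =>
      show sbd R n w = 0
      apply smp_injective iW
      rw [← sbd_smp, hw, sbd_smp, sbd_sbd, map_zero, map_zero]
  obtain ⟨y, hy⟩ := KW w hwc
  have hjU : ∀ x, jU (fW x) = fU (jU x) := by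
    intro x
    apply Subtype.ext
    show (fW x : X) = (fU (jU x) : X)
    rw [hfW, hfU]
    rfl
  have hjV : ∀ x, jV (fW x) = fV (jV x) := by
    intro x
    apply Subtype.ext
    show (fW x : X) = (fV (jV x) : X)
    rw [hfW, hfV]
    rfl
  have ca : IsCyc R (n + 1) (pact R fU q (n + 1) a' - smp R jU (n + 1) y) := by
    show sbd R n _ = 0
    rw [map_sub, sbd_pact, sbd_smp, hy, smp_pact fW fU jU hjU, hwU, sub_self]
  have cb : IsCyc R (n + 1) (pact R fV q (n + 1) b' + smp R jV (n + 1) y) := by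
    show sbd R n _ = 0
    rw [map_add, sbd_pact, sbd_smp, hy, smp_pact fW fV jV hjV, hwV, map_neg, add_neg_cancel]
  have ka := (KU _ ca).smp (incl U)
  have kb := (KV _ cb).smp (incl V)
  rw [smp_pact fU f (incl U) hfU, map_sub, smp_pact fU f (incl U) hfU, ← smp_comp, eU] at ka
  rw [smp_pact fV f (incl V) hfV, map_add, smp_pact fV f (incl V) hfV, ← smp_comp, eV] at kb
  have h2 := ka.add kb
  rw [← map_add, sub_add_add_cancel, ← map_add, hab, ← pact_mul] at h2
  have h1 := (isBdry_sub_SS_pow hz k).pact f (p * q)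
  rw [map_sub] at h1
  have h3 := h1.add h2
  rw [sub_add_cancel] at h3
  exact h3

end

end Pool.Agent.Lib.SingHom
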