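import Mathlib

/-!
# Ordered chains on a set, with the algebra of barycentric subdivision

`Ch R Y n` is the free module on the `(n+1)`-tuples of points of `Y`. Given an arbitrary function
`β` that chooses a point for every tuple, we define the subdivision operator `sd` and the chain
homotopy `ht` between the identity and `sd`.
-/

set_option linter.unusedSectionVars false

namespace Pool.Agent.Lib.SingHom

universe u v

section

variable (R : Type v) [CommRing R] {Y : Type u} {Y' : Type u}

/-- ordered chains -/
abbrev Ch (Y : Type u) (n : ℕ) : Type (max u v) := (Fin (n + 1) → Y) →₀ R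

/-- boundary of a tuple -/
noncomputable def bdv {n : ℕ} (v : Fin (n + 2) → Y) : Ch R Y n :=
  ∑ i : Fin (n + 2), (-1 : R) ^ (i : ℕ) • Finsupp.single (v ∘ i.succAbove) 1

/-- the boundary operator -/
noncomputable def bd (n : ℕ) : Ch R Y (n + 1) →ₗ[R] Ch R Y n :=
  Finsupp.linearCombination R (bdv R)

theorem bd_single {n : ℕ} (v : Fin (n + 2) → Y) :
    bd R n (Finsupp.single v 1) = bdv R v := by
  rw [bd, Finsupp.linearCombination_single, one_smul]

/-- the cone operator -/
noncomputable def cone (b : Y) (n : ℕ) : Ch R Y n →ₗ[R] Ch R Y (n + 1) :=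
  Finsupp.lmapDomain R R (fun v => (Fin.cons b v : Fin (n + 2) → Y))

theorem cone_single (b : Y) {n : ℕ} (v : Fin (n + 1) → Y) (r : R) :
    cone R b n (Finsupp.single v r) = Finsupp.single (Fin.cons b v : Fin (n + 2) → Y) r := by
  rw [cone, Finsupp.lmapDomain_apply, Finsupp.mapDomain_single]

theorem lin_ext {n : ℕ} {M : Type*} [AddCommGroup M] [Module R M] {f g : Ch R Y n →ₗ[R] M}
    (h : ∀ v, f (Finsupp.single v 1) = g (Finsupp.single v 1)) : f = g := by
  apply Finsupp.lhom_ext'
  intro v
  apply LinearMap.ext_ring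
  exact h v

theorem bd_cone_single (b : Y) {n : ℕ} (v : Fin (n + 2) → Y) :
    bd R (n + 1) (Finsupp.single (Fin.cons b v : Fin (n + 3) → Y) 1) =
      Finsupp.single v 1 - cone R b n (bd R n (Finsupp.single v 1)) := by
  rw [bd_single, bd_single, bdv, Fin.sum_univ_succ]
  have h0 : ((Fin.cons b v : Fin (n + 3) → Y) ∘ (0 : Fin (n + 3)).succAbove) = v := by
    funext i
    simp
  rw [h0, Fin.val_zero, pow_zero, one_smul, sub_eq_add_neg, bdv, map_sum, ← Finset.sum_neg_distrib]
  congr 1
  apply Finset.sum_congr rfl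
  intro i _
  rw [map_smul, cone_single, Fin.val_succ, pow_succ, mul_neg, mul_one, neg_smul]
  congr 3
  funext j
  refine Fin.cases ?_ (fun j => ?_) j
  · simp
  · simp [Fin.succ_succAbove_succ]

theorem bd_cone (b : Y) {n : ℕ} (c : Ch R Y (n + 1)) :
    bd R (n + 1) (cone R b (n + 1) c) = c - cone R b n (bd R n c) := by
  have h : (bd R (n + 1)) ∘ₗ (cone R b (n + 1)) = LinearMap.id - (cone R b n) ∘ₗ (bd R n) := by
    apply lin_ext
    intro v
    rw [LinearMap.comp_apply, cone_single, bd_cone_single]
    rfl
  exact LinearMap.congr_fun h c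

/-- the augmentation -/
noncomputable def eps : Ch R Y 0 →ₗ[R] R := Finsupp.linearCombination R (fun _ => (1 : R))

theorem eps_single (v : Fin 1 → Y) (r : R) : eps R (Finsupp.single v r) = r := by
  rw [eps, Finsupp.linearCombination_single, smul_eq_mul, mul_one]

theorem eps_bd (c : Ch R Y 1) : eps R (bd R 0 c) = 0 := by
  have h : (eps R) ∘ₗ (bd R (Y := Y) 0) = 0 := by
    apply lin_ext
    intro v
    rw [LinearMap.comp_apply, bd_single, bdv, Fin.sum_univ_two, map_add, map_smul, map_smul,
      eps_single, eps_single, Fin.val_zero, Fin.val_one]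
    simp
  exact LinearMap.congr_fun h c

theorem bd_cone_zero (b : Y) (c : Ch R Y 0) :
    bd R 0 (cone R b 0 c) = c - eps R c • Finsupp.single (fun _ => b) 1 := by
  have h : (bd R 0) ∘ₗ (cone R b 0) =
      LinearMap.id - (LinearMap.toSpanSingleton R (Ch R Y 0) (Finsupp.single (fun _ => b) 1)) ∘ₗ
        (eps R) := by
    apply lin_ext
    intro v
    rw [LinearMap.comp_apply, cone_single, bd_single, bdv, Fin.sum_univ_two, LinearMap.sub_apply,
      LinearMap.comp_apply, eps_single, LinearMap.toSpanSingleton_apply, LinearMap.id_apply,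
      Fin.val_zero, Fin.val_one, pow_zero, pow_one, one_smul, one_smul, neg_smul, one_smul,
      sub_eq_add_neg]
    congr 2
    congr 1
    funext i
    fin_cases i
    rfl
  exact LinearMap.congr_fun h c

theorem bd_bd {n : ℕ} (c : Ch R Y (n + 2)) : bd R n (bd R (n + 1) c) = 0 := by
  have key : ∀ n, (bd R (Y := Y) n) ∘ₗ (bd R (n + 1)) = 0 := by
    intro n
    induction n with
    | zero =>
      apply lin_ext
      intro v
      obtain ⟨b, w, rfl⟩ : ∃ b, ∃ w : Fin 2 → Y, v = Fin.cons b w :=
        ⟨v 0, Fin.tail v, (Fin.cons_self_tail v).symm⟩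
      rw [LinearMap.comp_apply, bd_cone_single, map_sub, LinearMap.zero_apply, bd_cone_zero,
        eps_bd, zero_smul, sub_zero, sub_self]
    | succ n ih =>
      apply lin_ext
      intro v
      obtain ⟨b, w, rfl⟩ : ∃ b, ∃ w : Fin (n + 3) → Y, v = Fin.cons b w :=
        ⟨v 0, Fin.tail v, (Fin.cons_self_tail v).symm⟩
      have h1 := LinearMap.congr_fun ih (Finsupp.single w 1)
      rw [LinearMap.comp_apply, LinearMap.zero_apply] at h1
      rw [LinearMap.comp_apply, bd_cone_single, map_sub, LinearMap.zero_apply, bd_cone, h1,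
        map_zero, sub_zero, sub_self]
  exact LinearMap.congr_fun (key n) c

/-! ### Subdivision -/

variable (β : (n : ℕ) → (Fin (n + 1) → Y) → Y)

/-- the subdivision operator -/
noncomputable def sd : (n : ℕ) → Ch R Y n →ₗ[R] Ch R Y n
  | 0 => LinearMap.id
  | n + 1 => Finsupp.linearCombination R
      (fun v => cone R (β (n + 1) v) n (sd n (bd R n (Finsupp.single v 1))))

/-- the chain homotopy between the identity and the subdivision operator -/
noncomputable def ht : (n : ℕ) → Ch R Y n →ₗ[R] Ch R Y (n + 1)
  | 0 => 0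
  | n + 1 => Finsupp.linearCombination R
      (fun v => cone R (β (n + 1) v) (n + 1)
        (Finsupp.single v 1 - ht n (bd R n (Finsupp.single v 1))))

theorem sd_zero (c : Ch R Y 0) : sd R β 0 c = c := rfl

theorem sd_single (n : ℕ) (v : Fin (n + 2) → Y) : sd R β (n + 1) (Finsupp.single v 1) =
    cone R (β (n + 1) v) n (sd R β n (bd R n (Finsupp.single v 1))) := by
  rw [sd, Finsupp.linearCombination_single, one_smul]

theorem ht_zero (c : Ch R Y 0) : ht R β 0 c = 0 := rfl

theorem ht_single (n : ℕ) (v : Fin (n + 2) → Y) : ht R β (n + 1) (Finsupp.single v 1) =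
    cone R (β (n + 1) v) (n + 1)
      (Finsupp.single v 1 - ht R β n (bd R n (Finsupp.single v 1))) := by
  rw [ht, Finsupp.linearCombination_single, one_smul]

/-- subdivision is a chain map -/
theorem bd_sd (n : ℕ) (c : Ch R Y (n + 1)) :
    bd R n (sd R β (n + 1) c) = sd R β n (bd R n c) := by
  have key : ∀ n, (bd R n) ∘ₗ (sd R β (n + 1)) = (sd R β n) ∘ₗ (bd R n) := by
    intro n
    induction n with
    | zero =>
      apply lin_ext
      intro v
      rw [LinearMap.comp_apply, LinearMap.comp_apply, sd_single, sd_zero, bd_cone_zero,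
        eps_bd, zero_smul, sub_zero]
    | succ n ih =>
      apply lin_ext
      intro v
      have h1 := LinearMap.congr_fun ih (bd R (n + 1) (Finsupp.single v 1))
      rw [LinearMap.comp_apply, LinearMap.comp_apply, bd_bd, map_zero] at h1
      rw [LinearMap.comp_apply, LinearMap.comp_apply, sd_single, bd_cone, h1, map_zero, sub_zero]
  exact LinearMap.congr_fun (key n) c

/-- the homotopy formula in positive degrees -/
theorem bd_ht (n : ℕ) (c : Ch R Y (n + 1)) :
    bd R (n + 1) (ht R β (n + 1) c) + ht R β n (bd R n c) = c - sd R β (n + 1) c := by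
  have key : ∀ n, (bd R (n + 1)) ∘ₗ (ht R β (n + 1)) + (ht R β n) ∘ₗ (bd R n) =
      LinearMap.id - sd R β (n + 1) := by
    intro n
    induction n with
    | zero =>
      apply lin_ext
      intro v
      rw [LinearMap.add_apply, LinearMap.comp_apply, LinearMap.comp_apply, ht_single, ht_zero,
        bd_cone, sub_zero, LinearMap.sub_apply, LinearMap.id_apply, sd_single, sd_zero, add_zero]
    | succ n ih =>
      apply lin_ext
      intro v
      have h1 := LinearMap.congr_fun ih (bd R (n + 1) (Finsupp.single v 1))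
      rw [LinearMap.add_apply, LinearMap.comp_apply, LinearMap.comp_apply, bd_bd, map_zero,
        add_zero, LinearMap.sub_apply, LinearMap.id_apply] at h1
      have h2 : bd R (n + 1) (ht R β (n + 1) (bd R (n + 1) (Finsupp.single v 1))) =
          bd R (n + 1) (Finsupp.single v 1) - sd R β (n + 1) (bd R (n + 1) (Finsupp.single v 1)) := h1
      rw [LinearMap.add_apply, LinearMap.comp_apply, LinearMap.comp_apply, ht_single, bd_cone,
        map_sub, h2, LinearMap.sub_apply, LinearMap.id_apply, sd_single, sub_sub_cancel]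
      abel
  exact LinearMap.congr_fun (key n) c

theorem bd_ht_zero (c : Ch R Y 0) : bd R 0 (ht R β 0 c) = c - sd R β 0 c := by
  rw [ht_zero, sd_zero, map_zero, sub_self]

/-! ### Naturality -/

/-- the map induced by a map of sets -/
noncomputable def mp (g : Y → Y') (n : ℕ) : Ch R Y n →ₗ[R] Ch R Y' n :=
  Finsupp.lmapDomain R R (fun v => g ∘ v)

theorem mp_single (g : Y → Y') {n : ℕ} (v : Fin (n + 1) → Y) (r : R) :
    mp R g n (Finsupp.single v r) = Finsupp.single (g ∘ v) r := by
  rw [mp, Finsupp.lmapDomain_apply, Finsupp.mapDomain_single]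

theorem bd_mp (g : Y → Y') (n : ℕ) (c : Ch R Y (n + 1)) :
    bd R n (mp R g (n + 1) c) = mp R g n (bd R n c) := by
  have h : (bd R n) ∘ₗ (mp R g (n + 1)) = (mp R g n) ∘ₗ (bd R n) := by
    apply lin_ext
    intro v
    rw [LinearMap.comp_apply, LinearMap.comp_apply, mp_single, bd_single, bd_single, bdv, bdv,
      map_sum]
    apply Finset.sum_congr rfl
    intro i _
    rw [map_smul, mp_single]
    rfl
  exact LinearMap.congr_fun h c

theorem cone_mp (g : Y → Y') (b : Y) (n : ℕ) (c : Ch R Y n) :
    mp R g (n + 1) (cone R b n c) = cone R (g b) n (mp R g n c) := by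
  have h : (mp R g (n + 1)) ∘ₗ (cone R b n) = (cone R (g b) n) ∘ₗ (mp R g n) := by
    apply lin_ext
    intro v
    rw [LinearMap.comp_apply, LinearMap.comp_apply, mp_single, cone_single, cone_single, mp_single]
    congr 1
    funext i
    refine Fin.cases ?_ (fun i => ?_) i
    · simp
    · simp
  exact LinearMap.congr_fun h c

variable (β' : (n : ℕ) → (Fin (n + 1) → Y') → Y')

theorem sd_mp (g : Y → Y') (hg : ∀ n v, g (β n v) = β' n (g ∘ v)) (n : ℕ) (c : Ch R Y n) :
    mp R g n (sd R β n c) = sd R β' n (mp R g n c) := by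
  have key : ∀ n, (mp R g n) ∘ₗ (sd R β n) = (sd R β' n) ∘ₗ (mp R g n) := by
    intro n
    induction n with
    | zero => rfl
    | succ n ih =>
      apply lin_ext
      intro v
      have h1 := LinearMap.congr_fun ih (bd R n (Finsupp.single v 1))
      rw [LinearMap.comp_apply, LinearMap.comp_apply] at h1
      rw [LinearMap.comp_apply, LinearMap.comp_apply, mp_single, sd_single, sd_single, cone_mp,
        h1, hg, ← bd_mp, mp_single]
  exact LinearMap.congr_fun (key n) c

theorem ht_mp (g : Y → Y') (hg : ∀ n v, g (β n v) = β' n (g ∘ v)) (n : ℕ) (c : Ch R Y n) :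
    mp R g (n + 1) (ht R β n c) = ht R β' n (mp R g n c) := by
  have key : ∀ n, (mp R g (n + 1)) ∘ₗ (ht R β n) = (ht R β' n) ∘ₗ (mp R g n) := by
    intro n
    induction n with
    | zero =>
      apply lin_ext
      intro v
      rw [LinearMap.comp_apply, LinearMap.comp_apply, ht_zero, ht_zero, map_zero]
    | succ n ih =>
      apply lin_ext
      intro v
      have h1 := LinearMap.congr_fun ih (bd R n (Finsupp.single v 1))
      rw [LinearMap.comp_apply, LinearMap.comp_apply] at h1
      rw [LinearMap.comp_apply, LinearMap.comp_apply, mp_single, ht_single, ht_single, cone_mp,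
        map_sub, mp_single, h1, hg, ← bd_mp, mp_single]
  exact LinearMap.congr_fun (key n) c

end

end Pool.Agent.Lib.SingHom
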