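import Pool.Agent.Lib.SingHom.Small

/-!
# Singular chains and their barycentric subdivision
-/

set_option linter.unusedSectionVars false

namespace Pool.Agent.Lib.SingHom

section

variable (R : Type) [CommRing R] {X X' X'' : Type} [TopologicalSpace X] [TopologicalSpace X']
  [TopologicalSpace X'']

/-- singular chains of dimension `n` with coefficients in `R` -/
abbrev SC (X : Type) [TopologicalSpace X] (n : ℕ) : Type := C(Sx n, X) →₀ R

/-- the `i`-th face of a singular simplex -/
noncomputable def face {n : ℕ} (i : Fin (n + 2)) (σ : C(Sx (n + 1), X)) : C(Sx n, X) :=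
  σ.comp (smap i.succAbove)

/-- boundary of a singular simplex -/
noncomputable def sbdv {n : ℕ} (σ : C(Sx (n + 1), X)) : SC R X n :=
  ∑ i : Fin (n + 2), (-1 : R) ^ (i : ℕ) • Finsupp.single (face i σ) 1

/-- the boundary operator on singular chains -/
noncomputable def sbd (n : ℕ) : SC R X (n + 1) →ₗ[R] SC R X n :=
  Finsupp.linearCombination R (sbdv R)

theorem sbd_single {n : ℕ} (σ : C(Sx (n + 1), X)) :
    sbd R n (Finsupp.single σ 1) = sbdv R σ := by
  rw [sbd, Finsupp.linearCombination_single, one_smul]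

theorem slin_ext {n : ℕ} {M : Type*} [AddCommGroup M] [Module R M] {f g : SC R X n →ₗ[R] M}
    (h : ∀ v, f (Finsupp.single v 1) = g (Finsupp.single v 1)) : f = g := by
  apply Finsupp.lhom_ext'
  intro v
  apply LinearMap.ext_ring
  exact h v

/-- the map on chains induced by a continuous map -/
noncomputable def smp (f : C(X, X')) (n : ℕ) : SC R X n →ₗ[R] SC R X' n :=
  Finsupp.lmapDomain R R (fun σ => f.comp σ)

theorem smp_single (f : C(X, X')) {n : ℕ} (σ : C(Sx n, X)) (r : R) :
    smp R f n (Finsupp.single σ r) = Finsupp.single (f.comp σ) r := by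
  rw [smp, Finsupp.lmapDomain_apply, Finsupp.mapDomain_single]

theorem smp_comp (g : C(X', X'')) (f : C(X, X')) (n : ℕ) (c : SC R X n) :
    smp R (g.comp f) n c = smp R g n (smp R f n c) := by
  have h : smp R (g.comp f) n = (smp R g n) ∘ₗ (smp R f n) := by
    apply slin_ext
    intro σ
    rw [LinearMap.comp_apply, smp_single, smp_single, smp_single]
    rfl
  exact LinearMap.congr_fun h c

theorem smp_id (n : ℕ) (c : SC R X n) : smp R (ContinuousMap.id X) n c = c := by
  have h : smp R (ContinuousMap.id X) n = LinearMap.id := by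
    apply slin_ext
    intro σ
    rw [smp_single]
    rfl
  exact LinearMap.congr_fun h c

theorem sbd_smp (f : C(X, X')) (n : ℕ) (c : SC R X (n + 1)) :
    sbd R n (smp R f (n + 1) c) = smp R f n (sbd R n c) := by
  have h : (sbd R n) ∘ₗ (smp R f (n + 1)) = (smp R f n) ∘ₗ (sbd R n) := by
    apply slin_ext
    intro σ
    rw [LinearMap.comp_apply, LinearMap.comp_apply, smp_single, sbd_single, sbd_single, sbdv,
      sbdv, map_sum]
    apply Finset.sum_congr rfl
    intro i _
    rw [map_smul, smp_single]
    rfl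
  exact LinearMap.congr_fun h c

/-- push an ordered chain in the standard simplex forward along a singular simplex -/
noncomputable def push {n : ℕ} (σ : C(Sx n, X)) (m : ℕ) : Ch R (Sx n) m →ₗ[R] SC R X m :=
  Finsupp.lmapDomain R R (fun v => σ.comp (aff v))

theorem push_single {n : ℕ} (σ : C(Sx n, X)) {m : ℕ} (v : Fin (m + 1) → Sx n) (r : R) :
    push R σ m (Finsupp.single v r) = Finsupp.single (σ.comp (aff v)) r := by
  rw [push, Finsupp.lmapDomain_apply, Finsupp.mapDomain_single]

theorem sbd_push {n : ℕ} (σ : C(Sx n, X)) (m : ℕ) (c : Ch R (Sx n) (m + 1)) :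
    sbd R m (push R σ (m + 1) c) = push R σ m (bd R m c) := by
  have h : (sbd R m) ∘ₗ (push R σ (m + 1)) = (push R σ m) ∘ₗ (bd R m) := by
    apply lin_ext
    intro v
    rw [LinearMap.comp_apply, LinearMap.comp_apply, push_single, sbd_single, bd_single, sbdv,
      bdv, map_sum]
    apply Finset.sum_congr rfl
    intro i _
    rw [map_smul, push_single]
    congr 2
    rw [face, ContinuousMap.comp_assoc, aff_smap]
  exact LinearMap.congr_fun h c

theorem push_comp_aff {n k : ℕ} (σ : C(Sx n, X)) (u : Fin (k + 1) → Sx n) (m : ℕ)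
    (c : Ch R (Sx k) m) : push R (σ.comp (aff u)) m c = push R σ m (mp R (aff u) m c) := by
  have h : push R (σ.comp (aff u)) m = (push R σ m) ∘ₗ (mp R (aff u) m) := by
    apply lin_ext
    intro v
    rw [LinearMap.comp_apply, mp_single, push_single, push_single]
    congr 1
    rw [ContinuousMap.comp_assoc, aff_comp]
    rfl
  exact LinearMap.congr_fun h c

theorem smp_push (f : C(X, X')) {n : ℕ} (σ : C(Sx n, X)) (m : ℕ) (c : Ch R (Sx n) m) :
    smp R f m (push R σ m c) = push R (f.comp σ) m c := by
  have h : (smp R f m) ∘ₗ (push R σ m) = push R (f.comp σ) m := by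
    apply lin_ext
    intro v
    rw [LinearMap.comp_apply, push_single, push_single, smp_single]
    rfl
  exact LinearMap.congr_fun h c

/-- the tuple of all vertices -/
noncomputable def vx (n : ℕ) : Fin (n + 1) → Sx n := fun i => stdSimplex.vertex i

theorem comp_aff_vx {n : ℕ} (σ : C(Sx n, X)) : σ.comp (aff (vx n)) = σ := by
  have : aff (vx n) = ContinuousMap.id _ := aff_id
  rw [this, ContinuousMap.comp_id]

theorem aff_comp_vx {n k : ℕ} (v : Fin (k + 1) → Sx n) : (aff v : Sx k → Sx n) ∘ vx k = v := by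
  funext i
  exact aff_vertex v i

/-- subdivision of singular chains -/
noncomputable def SS (n : ℕ) : SC R X n →ₗ[R] SC R X n :=
  Finsupp.linearCombination R (fun σ => push R σ n (sdx R n n (Finsupp.single (vx n) 1)))

/-- chain homotopy for the subdivision of singular chains -/
noncomputable def HH (n : ℕ) : SC R X n →ₗ[R] SC R X (n + 1) :=
  Finsupp.linearCombination R
    (fun σ => push R σ (n + 1) (ht R (bary n) n (Finsupp.single (vx n) 1)))

theorem SS_single {n : ℕ} (σ : C(Sx n, X)) : SS R n (Finsupp.single σ 1) =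
    push R σ n (sdx R n n (Finsupp.single (vx n) 1)) := by
  rw [SS, Finsupp.linearCombination_single, one_smul]

theorem HH_single {n : ℕ} (σ : C(Sx n, X)) : HH R n (Finsupp.single σ 1) =
    push R σ (n + 1) (ht R (bary n) n (Finsupp.single (vx n) 1)) := by
  rw [HH, Finsupp.linearCombination_single, one_smul]

theorem SS_push {n : ℕ} (σ : C(Sx n, X)) (m : ℕ) (c : Ch R (Sx n) m) :
    SS R m (push R σ m c) = push R σ m (sdx R n m c) := by
  have h : (SS R m) ∘ₗ (push R σ m) = (push R σ m) ∘ₗ (sdx R n m) := by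
    apply lin_ext
    intro v
    rw [LinearMap.comp_apply, LinearMap.comp_apply, push_single, SS_single, push_comp_aff, sdx,
      sd_mp R (bary m) (bary n) (aff v) (fun k w => aff_bary v k w), mp_single, aff_comp_vx]
  exact LinearMap.congr_fun h c

theorem HH_push {n : ℕ} (σ : C(Sx n, X)) (m : ℕ) (c : Ch R (Sx n) m) :
    HH R m (push R σ m c) = push R σ (m + 1) (ht R (bary n) m c) := by
  have h : (HH R m) ∘ₗ (push R σ m) = (push R σ (m + 1)) ∘ₗ (ht R (bary n) m) := by
    apply lin_ext
    intro v
    rw [LinearMap.comp_apply, LinearMap.comp_apply, push_single, HH_single, push_comp_aff,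
      ht_mp R (bary m) (bary n) (aff v) (fun k w => aff_bary v k w), mp_single, aff_comp_vx]
  exact LinearMap.congr_fun h c

theorem push_vx {n : ℕ} (σ : C(Sx n, X)) :
    push R σ n (Finsupp.single (vx n) 1) = Finsupp.single σ 1 := by
  rw [push_single, comp_aff_vx]

theorem sbd_sbd (n : ℕ) (c : SC R X (n + 2)) : sbd R n (sbd R (n + 1) c) = 0 := by
  have h : (sbd R n) ∘ₗ (sbd R (X := X) (n + 1)) = 0 := by
    apply slin_ext
    intro σ
    rw [LinearMap.comp_apply, ← push_vx R σ, sbd_push, sbd_push, bd_bd, map_zero]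
    rfl
  exact LinearMap.congr_fun h c

theorem sbd_SS (n : ℕ) (c : SC R X (n + 1)) : sbd R n (SS R (n + 1) c) = SS R n (sbd R n c) := by
  have h : (sbd R n) ∘ₗ (SS R (X := X) (n + 1)) = (SS R n) ∘ₗ (sbd R n) := by
    apply slin_ext
    intro σ
    rw [LinearMap.comp_apply, LinearMap.comp_apply, SS_single, sbd_push, bd_sd, ← SS_push,
      ← sbd_push, push_vx]
  exact LinearMap.congr_fun h c

theorem sbd_HH (n : ℕ) (c : SC R X (n + 1)) :
    sbd R (n + 1) (HH R (n + 1) c) + HH R n (sbd R n c) = c - SS R (n + 1) c := by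
  have h : (sbd R (n + 1)) ∘ₗ (HH R (X := X) (n + 1)) + (HH R n) ∘ₗ (sbd R n) =
      LinearMap.id - SS R (n + 1) := by
    apply slin_ext
    intro σ
    have h1 := congrArg (push R σ (n + 1)) (bd_ht R (bary (n + 1)) n
      (Finsupp.single (vx (n + 1)) 1))
    rw [map_add, map_sub, ← sbd_push, ← HH_push, ← HH_push, ← sbd_push, ← SS_push, push_vx] at h1
    exact h1
  exact LinearMap.congr_fun h c

theorem sbd_HH_zero (c : SC R X 0) : sbd R 0 (HH R 0 c) = c - SS R 0 c := by
  have h : (sbd R 0) ∘ₗ (HH R (X := X) 0) = LinearMap.id - SS R 0 := by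
    apply slin_ext
    intro σ
    have h1 := congrArg (push R σ 0) (bd_ht_zero R (bary 0) (Finsupp.single (vx 0) 1))
    rw [map_sub, ← sbd_push, ← HH_push, ← SS_push, push_vx] at h1
    exact h1
  exact LinearMap.congr_fun h c

theorem SS_smp (f : C(X, X')) (n : ℕ) (c : SC R X n) :
    SS R n (smp R f n c) = smp R f n (SS R n c) := by
  have h : (SS R n) ∘ₗ (smp R f n) = (smp R f n) ∘ₗ (SS R n) := by
    apply slin_ext
    intro σ
    rw [LinearMap.comp_apply, LinearMap.comp_apply, smp_single, SS_single, SS_single, smp_push]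
  exact LinearMap.congr_fun h c

end

end Pool.Agent.Lib.SingHom
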