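import Pool.Agent.Lib.SingHom.Aff

/-!
# Iterated barycentric subdivision makes simplices small
-/

set_option linter.unusedSectionVars false

namespace Pool.Agent.Lib.SingHom

universe u v

section

variable (R : Type v) [CommRing R] {Y : Type u} {Y' : Type u}

/-- chains all of whose simplices satisfy `P` -/
noncomputable def supp {α : Type u} (P : α → Prop) : Submodule R (α →₀ R) :=
  Finsupp.supported R R {v | P v}

theorem single_mem_supp {α : Type u} {P : α → Prop} {v : α} (h : P v) (r : R) :
    Finsupp.single v r ∈ supp R P :=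
  Finsupp.single_mem_supported R r h

theorem supp_map {α : Type u} {M : Type*} [AddCommGroup M] [Module R M] {P : α → Prop}
    {N : Submodule R M} (f : (α →₀ R) →ₗ[R] M)
    (h : ∀ v, P v → f (Finsupp.single v 1) ∈ N) {c : α →₀ R} (hc : c ∈ supp R P) : f c ∈ N := by
  rw [supp, Finsupp.supported_eq_span_single] at hc
  refine Submodule.span_induction (p := fun c _ => f c ∈ N) ?_ ?_ ?_ ?_ hc
  · rintro _ ⟨v, hv, rfl⟩
    exact h v hv
  · rw [map_zero]
    exact N.zero_mem
  · intro x y _ _ hx hy
    rw [map_add]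
    exact N.add_mem hx hy
  · intro r x _ hx
    rw [map_smul]
    exact N.smul_mem r hx

theorem supp_mono {α : Type u} {P Q : α → Prop} (h : ∀ v, P v → Q v) : supp R P ≤ supp R Q :=
  Finsupp.supported_mono h

end

section

variable (R : Type) [CommRing R]

/-- the subdivision operator on ordered chains in a standard simplex -/
noncomputable abbrev sdx (n m : ℕ) : Ch R (Sx n) m →ₗ[R] Ch R (Sx n) m := sd R (bary n) m

theorem sdx_single_mem {n : ℕ} (m : ℕ) (v : Fin (m + 1) → Sx n) {d : ℝ} (hd : 0 ≤ d)
    (hv : Spread d v) : sdx R n m (Finsupp.single v 1) ∈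
      supp R (fun w : Fin (m + 1) → Sx n =>
        (∀ i, ∃ t : Sx m, w i = aff v t) ∧ Spread ((m : ℝ) / (m + 1) * d) w) := by
  induction m with
  | zero =>
    rw [sdx, sd_zero]
    apply single_mem_supp
    refine ⟨fun i => ⟨stdSimplex.vertex i, (aff_vertex v i).symm⟩, fun i j => ?_⟩
    have hij : i = j := Fin.ext (by omega)
    rw [hij, dist_self]
    simp
  | succ m ih =>
    rw [sdx, sd_single, bd_single, bdv, map_sum, map_sum]
    apply Submodule.sum_mem
    intro i _
    rw [map_smul, map_smul]
    apply Submodule.smul_mem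
    have h1 := ih (v ∘ i.succAbove) (fun a b => hv _ _)
    refine supp_map R (cone R (bary n (m + 1) v) m) ?_ h1
    rintro w ⟨hw1, hw2⟩
    rw [cone_single]
    apply single_mem_supp
    have hw3 : ∀ j, ∃ t : Sx (m + 1), w j = aff v t := by
      intro j
      obtain ⟨t, ht⟩ := hw1 j
      refine ⟨smap i.succAbove t, ?_⟩
      rw [ht]
      exact (ContinuousMap.congr_fun (aff_smap v i.succAbove) t).symm
    have hle : (m : ℝ) / (m + 1) * d ≤ ((m + 1 : ℕ) : ℝ) / ((m + 1 : ℕ) + 1) * d := by
      apply mul_le_mul_of_nonneg_right _ hd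
      rw [div_le_div_iff₀ (by positivity) (by positivity)]
      push_cast
      nlinarith
    refine ⟨?_, ?_⟩
    · intro j
      refine Fin.cases ?_ (fun j => ?_) j
      · exact ⟨stdSimplex.barycenter, rfl⟩
      · rw [Fin.cons_succ]
        exact hw3 j
    · have hb : ∀ j, dist (bary n (m + 1) v) (w j) ≤ ((m + 1 : ℕ) : ℝ) / ((m + 1 : ℕ) + 1) * d := by
        intro j
        obtain ⟨t, ht⟩ := hw3 j
        rw [ht]
        exact hv.dist_bary hd t
      have hz : 0 ≤ ((m + 1 : ℕ) : ℝ) / ((m + 1 : ℕ) + 1) * d := by positivity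
      intro a b
      refine Fin.cases ?_ (fun a => ?_) a
      · refine Fin.cases ?_ (fun b => ?_) b
        · rw [dist_self]
          exact hz
        · rw [Fin.cons_zero, Fin.cons_succ]
          exact hb b
      · refine Fin.cases ?_ (fun b => ?_) b
        · rw [Fin.cons_zero, Fin.cons_succ, dist_comm]
          exact hb a
        · rw [Fin.cons_succ, Fin.cons_succ]
          exact (hw2 a b).trans hle

theorem sdx_pow_mem {n : ℕ} (m k : ℕ) (v : Fin (m + 1) → Sx n) {d : ℝ} (hd : 0 ≤ d)
    (hv : Spread d v) : ((sdx R n m) ^ k) (Finsupp.single v 1) ∈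
      supp R (fun w : Fin (m + 1) → Sx n => Spread (((m : ℝ) / (m + 1)) ^ k * d) w) := by
  induction k with
  | zero =>
    rw [pow_zero, pow_zero, one_mul]
    exact single_mem_supp R hv 1
  | succ k ih =>
    have e : ((sdx R n m) ^ (k + 1)) (Finsupp.single v 1) =
        (sdx R n m) (((sdx R n m) ^ k) (Finsupp.single v 1)) := by
      rw [pow_succ' (sdx R n m)]
      rfl
    rw [e]
    refine supp_map R (sdx R n m) ?_ ih
    intro w hw
    have h0 : 0 ≤ ((m : ℝ) / (m + 1)) ^ k * d := by positivity
    refine supp_mono R ?_ (sdx_single_mem R m w h0 hw)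
    rintro w' ⟨_, h2⟩
    rw [pow_succ', mul_assoc]
    exact h2

theorem dist_le_one {n : ℕ} (x y : Sx n) : dist x y ≤ 1 := by
  apply dist_le_of_coord zero_le_one
  intro k
  rw [abs_le]
  have h1 := stdSimplex.zero_le x k
  have h2 := stdSimplex.zero_le y k
  have h3 := stdSimplex.le_one x k
  have h4 := stdSimplex.le_one y k
  constructor <;> linarith

theorem exists_pow_lt (m : ℕ) {δ : ℝ} (hδ : 0 < δ) : ∃ k : ℕ, ((m : ℝ) / (m + 1)) ^ k < δ := by
  apply exists_pow_lt_of_lt_one hδ
  rw [div_lt_one (by positivity)]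
  linarith

end

end Pool.Agent.Lib.SingHom
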